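import Mathlib
import Pool.Agent.H530R2.Rdk6
import Pool.Agent.H530R2.Spa2

/-!
# Explicit hitting sets for programs of constant width reading every variable a constant
number of times

Polynomial size hitting sets for oblivious programs with a constant number of registers which
read every variable a constant number of times, in an arbitrary order of the reads (no passes),
for instance for oblivious algebraic branching programs of constant width and constant read. The
arguments of the programs may again be polynomials computed by such programs, to constant depth,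
over sparse polynomials. The size is polynomial also in the number of monomials of the sparse
polynomials. On top of these there are arbitrary composites of bounded transcendence degree,
arbitrary products of these, and factors of the products.
-/

namespace Pool.Agent.Results.MP_e2be99_lc.BoundedReadPrograms

open MvPolynomial

/-- The contents of `u` registers after `b` steps. The registers start with the constants `c₀`;
step `b` replaces the contents of register `j` by an arbitrary polynomial `upd b j` in the old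
contents of the registers and the `v` arguments `arg b 0, …, arg b (v-1)` of this step. -/
noncomputable def contents {n u v : ℕ} (c₀ : Fin u → ℂ)
    (arg : ℕ → Fin v → MvPolynomial (Fin n) ℂ)
    (upd : ℕ → Fin u → MvPolynomial (Fin u ⊕ Fin v) ℂ) : ℕ → Fin u → MvPolynomial (Fin n) ℂ
  | 0 => fun j => C (c₀ j)
  | b + 1 => fun j => aeval (Sum.elim (contents c₀ arg upd b) (arg b)) (upd b j)

/-- `Comp w s D f`: the polynomial `f` is computed with depth `D`.
* Depth `0` (leaves): polynomials with at most `s` monomials.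
* `program` (depth `D + 1`): the output of a program of any length `R` with at most `w` registers
  and at most `w` arguments in every step. The updates of the registers and the final polynomial
  `P` in the contents of the registers are arbitrary. All arguments have depth `D`, and, up to a
  set `S` of at most `w` exceptional variables, every variable occurs in the arguments of at most
  `w` steps. -/
inductive Comp {n : ℕ} (w s : ℕ) : ℕ → MvPolynomial (Fin n) ℂ → Prop
  | sparse {f : MvPolynomial (Fin n) ℂ} : f.support.card ≤ s → Comp w s 0 f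
  | up {D : ℕ} {f : MvPolynomial (Fin n) ℂ} : Comp w s D f → Comp w s (D + 1) f
  | program {D u v : ℕ} (c₀ : Fin u → ℂ) (arg : ℕ → Fin v → MvPolynomial (Fin n) ℂ)
      (upd : ℕ → Fin u → MvPolynomial (Fin u ⊕ Fin v) ℂ) (R : ℕ) (P : MvPolynomial (Fin u) ℂ)
      (S : Finset (Fin n)) : u ≤ w → v ≤ w → S.card ≤ w →
      (∀ k, k ∉ S → ((Finset.range R).filter fun b => ∃ i, k ∈ (arg b i).vars).card ≤ w) →
      (∀ b i, Comp w s D (arg b i)) → Comp w s (D + 1) (aeval (contents c₀ arg upd R) P)

/-- The oblivious branching program `u ⬝ M_0(x_{a 0}) M_1(x_{a 1}) ⋯ M_{l-1}(x_{a (l-1)}) ⬝ v` of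
width `w`, with matrices of univariate polynomials, which reads the variables in the order
`a 0, a 1, …, a (l-1)`. -/
noncomputable def oblivious {n w l : ℕ} (a : Fin l → Fin n)
    (M : Fin l → Matrix (Fin w) (Fin w) (Polynomial ℂ)) (u v : Fin w → ℂ) :
    MvPolynomial (Fin n) ℂ :=
  ∑ i, ∑ j, C (u i) * (List.ofFn fun t : Fin l =>
    (M t).map (Polynomial.aeval (X (a t) : MvPolynomial (Fin n) ℂ))).prod i j * C (v j)

/-- Composites `P(g_0, …, g_{N-1})` of polynomials of depth `D`, any `r + 1` of which are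
algebraically dependent; the number `N`, the polynomial `P` and its degree are arbitrary. -/
def Composite {n : ℕ} (w s D r : ℕ) (f : MvPolynomial (Fin n) ℂ) : Prop :=
  ∃ (N : ℕ) (g : Fin N → MvPolynomial (Fin n) ℂ) (P : MvPolynomial (Fin N) ℂ),
    (∀ i, Comp w s D (g i)) ∧
    (∀ q : Fin (r + 1) → Fin N, ¬ AlgebraicIndependent ℂ (fun i => g (q i))) ∧ f = aeval g P

/-- `∑_{i ≤ N} (v - 1)^i (u choose i)`, which is equal to `v ^ u` for `u ≤ N` -/
def power (N v u : ℕ) : ℕ := ∑ i ∈ Finset.range (N + 1), (v - 1) ^ i * u.choose i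

/-- The point with seeds `u ∈ ℕ`, `y, z ∈ ℕ^m`: its `i`-th coordinate is
`power N p_i u + ∑_l y_l ∏_{k ≠ i} (z_l - k)`, where `p_0 = 2, p_1 = 3, …` are the primes. -/
noncomputable def point (n m N u : ℕ) (y z : Fin m → ℕ) : Fin n → ℤ := fun i =>
  (power N (Nat.nth Nat.Prime i) u : ℤ) +
    ∑ l : Fin m, (y l : ℤ) * ∏ k ∈ Finset.univ.erase i, ((z l : ℤ) - ((k : ℕ) : ℤ))

/-- The explicit set of all points with seeds `u ∈ {0,…,Nd}`, `y ∈ {0,…,d}^m`,
`z ∈ {0,…,nd}^m`. -/
noncomputable def points (n m N d : ℕ) : Finset (Fin n → ℤ) :=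
  ((Finset.range (N * d + 1)) ×ˢ ((Fintype.piFinset fun _ : Fin m => Finset.range (d + 1)) ×ˢ
    (Fintype.piFinset fun _ : Fin m => Finset.range (n * d + 1)))).image
    fun uyz => point n m N uyz.1 uyz.2.1 uyz.2.2

open Pool.Agent.H530R2

open Pool.Agent.H626R2.Loc (evG base)

/-- the families of classes -/
noncomputable def up (𝔎 : Fam (RatFunc ℂ)) : ℕ → Fam (RatFunc ℂ)
  | 0 => 𝔎
  | D + 1 => (up 𝔎 D).next

/-- the parameter of the classes -/
def bd (w : ℕ) : ℕ → ℕ
  | 0 => 1
  | D + 1 => bd w D + w + 1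

/-- extension of scalars -/
noncomputable abbrev ext {n : ℕ} : MvPolynomial (Fin n) ℂ →+* MvPolynomial (Fin n) (RatFunc ℂ) :=
  map (algebraMap ℂ (RatFunc ℂ))

theorem ext_aeval {n : ℕ} {κ : Type} (g : κ → MvPolynomial (Fin n) ℂ) (p : MvPolynomial κ ℂ) :
    ext (aeval g p) = aeval (fun i => ext (g i)) (map (algebraMap ℂ (RatFunc ℂ)) p) := by
  induction p using MvPolynomial.induction_on with
  | C r =>
    rw [algHom_C, map_C, algHom_C]
    exact map_C _ _
  | add p q hp hq => rw [map_add, map_add, hp, hq, map_add, map_add]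
  | mul_X p i hp =>
    rw [map_mul, map_mul, hp, map_mul, map_mul, aeval_X, map_X, aeval_X]

theorem ext_vars {n : ℕ} (g : MvPolynomial (Fin n) ℂ) : (ext g).vars ⊆ g.vars := by
  classical
  intro x hx
  rw [mem_vars_iff_mem_support] at hx ⊢
  obtain ⟨e, he, hxe⟩ := hx
  exact ⟨e, support_map_subset _ _ he, hxe⟩

theorem comp_mem {n w s D : ℕ} (𝔎 : Fam (RatFunc ℂ)) (σ : ℕ)
    (h𝔎 : ∀ f : MvPolynomial (Fin n) ℂ, f.support.card ≤ s → ext f ∈ 𝔎.K σ n 1)
    {f : MvPolynomial (Fin n) ℂ} (h : Comp w s D f) : ext f ∈ (up 𝔎 D).K σ n (bd w D) := by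
  classical
  induction h with
  | @sparse f hf => exact h𝔎 f hf
  | @up D f _ ih => exact (up 𝔎 D).toNext (by simp only [bd]; omega) (by simp only [bd]; omega) ih
  | @program D u v c₀ arg upd R P S hu hv hS hocc _ ih =>
    set B : ℕ → Finset (Fin n) := fun t => Finset.univ.biUnion fun i => (arg t i).vars with hB
    have hreg : RegK (up 𝔎 D) σ B (bd w D + (up 𝔎 D).c0)
        (fun b j => ext (contents c₀ arg upd b j)) (fun b i => ext (arg b i)) := by
      refine ⟨fun i => ⟨algebraMap ℂ (RatFunc ℂ) (c₀ i), map_C _ _⟩,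
        fun b i => (up 𝔎 D).mono (Nat.le_add_right _ _) (ih b i), ?_, fun b j => ?_⟩
      · intro b i
        rw [mem_supported]
        exact_mod_cast (ext_vars _).trans
          (Finset.subset_biUnion_of_mem (fun i => (arg b i).vars) (Finset.mem_univ i))
      · have h1 : contents c₀ arg upd (b + 1) j =
          aeval (Sum.elim (contents c₀ arg upd b) (arg b)) (upd b j) := rfl
        rw [h1, ext_aeval, ← Set.Sum.elim_range, Algebra.adjoin_range_eq_range_aeval]
        refine ⟨map (algebraMap ℂ (RatFunc ℂ)) (upd b j), ?_⟩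
        show aeval _ _ = aeval _ _
        congr 2
        funext x
        rcases x with x | x <;> rfl
    refine Out.ofReg (hreg.trunc (Nat.le_add_left _ _) R) ?_ ?_ ?_ ⟨S, ?_, ?_⟩ (R := R) ?_
    · simp only [bd]; omega
    · rw [Fintype.card_fin]; simp only [bd]; omega
    · rw [Fintype.card_fin]; simp only [bd]; omega
    · simp only [bd]; omega
    · intro i hi t
      refine (cnt_trunc B R t i).trans (le_trans ?_ ((hocc i hi).trans
        (show w ≤ bd w (D + 1) by simp only [bd]; omega)))
      unfold cnt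
      apply Finset.card_le_card
      intro b hb
      rw [Finset.mem_filter] at hb ⊢
      refine ⟨hb.1, ?_⟩
      obtain ⟨j, _, hj⟩ := Finset.mem_biUnion.1 hb.2
      exact ⟨j, hj⟩
    · rw [ext_aeval, Algebra.adjoin_range_eq_range_aeval]
      refine ⟨map (algebraMap ℂ (RatFunc ℂ)) P, ?_⟩
      simp only [min_self]
      rfl

theorem ext_dep {n κ : ℕ} {g : Fin κ → MvPolynomial (Fin n) ℂ}
    (h : ¬ AlgebraicIndependent ℂ g) :
    ¬ AlgebraicIndependent (RatFunc ℂ) (fun i => ext (g i)) := by
  intro hind
  apply h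
  rw [algebraicIndependent_iff] at hind ⊢
  intro p hp
  have h1 := hind (map (algebraMap ℂ (RatFunc ℂ)) p) (by rw [← ext_aeval, hp, map_zero])
  exact (map_injective _ (algebraMap ℂ (RatFunc ℂ)).injective) (by rw [h1, map_zero])

/-- composites of bounded transcendence degree do not vanish on the generator -/
theorem composite_hit (w D r : ℕ) : ∃ A m : ℕ, ∀ n s : ℕ, ∀ f : MvPolynomial (Fin n) ℂ,
    Composite w s D r f → f ≠ 0 → evG ℂ (base ℂ n ((s + 2) ^ A)) m f ≠ 0 := by
  classical
  by_contra hcon
  push Not at hcon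
  choose n_ s_ f_ hf_ hf0 hev using fun k => hcon k k
  have hV : ∀ k, ∀ h : MvPolynomial (Fin (n_ k)) ℂ, h ≠ 0 → h.support.card ≤ (s_ k + 2) ^ k →
      ∀ Y, map (algebraMap ℂ (RatFunc ℂ)) h ∉ (bVan (n_ k) ((s_ k + 2) ^ k)).I 0 Y :=
    fun k h h0 hs Y => bVan_hit h0 hs Y
  set 𝔎 : Fam (RatFunc ℂ) := seqFam n_ (fun k => s_ k + 2) (fun k => Nat.le_add_left _ _)
    (fun k => bVan (n_ k) ((s_ k + 2) ^ k)) hV with h𝔎
  have hok : ∀ D k : ℕ, bVan (n_ k) ((s_ k + 2) ^ k) ∈ (up 𝔎 D).Ok k (n_ k) := by
    intro D k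
    induction D with
    | zero => exact rfl
    | succ D ih => exact ih
  obtain ⟨m₀, hm₀⟩ := (up 𝔎 D).comp (bd w D) r
  obtain ⟨N, g, P, hg, htr, hF⟩ := hf_ m₀
  have h1 := hm₀ m₀ (n_ m₀) _ (hok D m₀) N (fun i => ext (g i))
    (fun i => comp_mem (w := w) 𝔎 m₀ (fun f hf => ⟨Unit, inferInstance, fun _ => f, by simp,
      fun _ => by rw [pow_one]; exact hf.trans (Nat.le_add_right _ _),
      Algebra.subset_adjoin ⟨(), rfl⟩⟩) (hg i))
    (fun q => ext_dep (htr q)) (map (algebraMap ℂ (RatFunc ℂ)) P) ∅ (by
      rw [← ext_aeval, ← hF]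
      exact mem_bVan (hev m₀))
  rw [← ext_aeval, ← hF] at h1
  exact hf0 m₀ ((map_injective _ (algebraMap ℂ (RatFunc ℂ)).injective) (by rw [h1, map_zero]))

theorem exists_point {n m N d : ℕ} {f : MvPolynomial (Fin n) ℂ} (h : evG ℂ (base ℂ n N) m f ≠ 0)
    (hd : f.totalDegree ≤ d) : ∃ p ∈ points n m N d, eval (fun i => (p i : ℂ)) f ≠ 0 := by
  obtain ⟨u, y, z, hu, hy, hz, hne⟩ := Pool.Agent.H626R2.Loc.exists_gridG h hd
  refine ⟨point n m N u y z, ?_, ?_⟩
  · unfold points
    rw [Finset.mem_image]
    refine ⟨(u, y, z), ?_, rfl⟩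
    rw [Finset.mem_product, Finset.mem_product]
    exact ⟨Finset.mem_range.2 (Nat.lt_succ_of_le hu),
      Fintype.mem_piFinset.2 fun l => Finset.mem_range.2 (Nat.lt_succ_of_le (hy l)),
      Fintype.mem_piFinset.2 fun l => Finset.mem_range.2 (Nat.lt_succ_of_le (hz l))⟩
  · have h3 : (fun i => ((point n m N u y z i : ℤ) : ℂ)) = (fun i : Fin n =>
        ((Pool.Agent.H626R2.Loc.psiN N (Nat.nth Nat.Prime i) u : ℕ) : ℂ) +
        ∑ l, (y l : ℂ) * ∏ j ∈ Finset.univ.erase i, ((z l : ℂ) - ((j : ℕ) : ℂ))) := by
      funext i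
      unfold point
      push_cast
      rfl
    rw [h3]
    exact hne

theorem oblivious_mem {n w k l : ℕ} (a : Fin l → Fin n)
    (ha : ∀ i, (Finset.univ.filter fun t => a t = i).card ≤ k)
    (M : Fin l → Matrix (Fin w) (Fin w) (Polynomial ℂ)) (u v : Fin w → ℂ) :
    Comp (w + k + 1) 1 1 (oblivious a M u v) := by
  classical
  set arg : ℕ → Fin 1 → MvPolynomial (Fin n) ℂ :=
    fun b _ => if h : b < l then X (a ⟨b, h⟩) else 0 with harg
  set upd : ℕ → Fin w → MvPolynomial (Fin w ⊕ Fin 1) ℂ :=
    fun b j => if h : b < l then ∑ i, X (Sum.inl i) *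
      Polynomial.aeval (X (Sum.inr 0) : MvPolynomial (Fin w ⊕ Fin 1) ℂ) (M ⟨b, h⟩ i j) else 0
    with hupd
  have key : ∀ b : ℕ, ∀ hb : b ≤ l, ∀ j, contents u arg upd b j =
      ∑ i, C (u i) * (List.ofFn fun t : Fin b => (M (Fin.castLE hb t)).map
        (Polynomial.aeval (X (a (Fin.castLE hb t)) : MvPolynomial (Fin n) ℂ))).prod i j := by
    intro b
    induction b with
    | zero =>
      intro _ j
      simp only [contents, List.ofFn_zero, List.prod_nil, Matrix.one_apply]
      rw [Finset.sum_eq_single j]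
      · rw [if_pos rfl, mul_one]
      · intro i _ hij
        rw [if_neg hij, mul_zero]
      · intro h
        exact absurd (Finset.mem_univ j) h
    | succ b ih =>
      intro hb j
      have hb' : b < l := hb
      have h1 : contents u arg upd (b + 1) j = ∑ q, contents u arg upd b q *
          Polynomial.aeval (X (a ⟨b, hb'⟩) : MvPolynomial (Fin n) ℂ) (M ⟨b, hb'⟩ q j) := by
        simp only [contents, hupd, dif_pos hb', map_sum, map_mul, aeval_X, Sum.elim_inl]
        apply Finset.sum_congr rfl
        intro q _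
        congr 1
        rw [← Polynomial.aeval_algHom_apply]
        simp [harg, hb']
      rw [h1]
      simp only [ih (by omega : b ≤ l)]
      simp only [List.ofFn_succ', List.concat_eq_append, List.prod_append, List.prod_singleton,
        Matrix.mul_apply, Finset.mul_sum, Finset.sum_mul]
      rw [Finset.sum_comm]
      apply Finset.sum_congr rfl
      intro i _
      apply Finset.sum_congr rfl
      intro q _
      rw [mul_assoc]
      rfl
  have h2 : oblivious a M u v =
      aeval (contents u arg upd l) (∑ j, X j * C (v j) : MvPolynomial (Fin w) ℂ) := by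
    rw [map_sum]
    unfold oblivious
    rw [Finset.sum_comm]
    apply Finset.sum_congr rfl
    intro j _
    rw [map_mul, aeval_X, key l le_rfl j, Finset.sum_mul]
    apply Finset.sum_congr rfl
    intro i _
    simp only [algHom_C]
    rfl
  rw [h2]
  refine Comp.program u arg upd l _ ∅ (by omega) (by omega) (by simp) ?_ ?_
  · intro i _
    refine le_trans ?_ ((ha i).trans (show k ≤ w + k + 1 by omega))
    refine le_trans (Finset.card_le_card (t := (Finset.univ.filter fun t => a t = i).image
      (fun t : Fin l => (t : ℕ))) ?_) Finset.card_image_le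
    intro b hb
    rw [Finset.mem_filter, Finset.mem_range] at hb
    obtain ⟨hb1, j, hj⟩ := hb
    simp only [harg, dif_pos hb1, vars_X, Finset.mem_singleton] at hj
    rw [Finset.mem_image]
    exact ⟨⟨b, hb1⟩, Finset.mem_filter.2 ⟨Finset.mem_univ _, hj.symm⟩, rfl⟩
  · intro b j
    apply Comp.sparse
    by_cases h : b < l
    · simp only [harg, dif_pos h]
      refine (Finset.card_le_card (support_monomial_subset)).trans ?_
      simp
    · simp only [harg, dif_neg h, support_zero, Finset.card_empty, Nat.zero_le]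

/-- For all bounds `w, D, r` there are `k, m` such that for all `n, d, s` and `N = (s + 2)^k` the
explicit set `points n m N d ⊆ ℤ^n` with at most `(Nd+1) ((d+1)(nd+1))^m` elements hits every
polynomial of total degree at most `d` in `n` variables that divides a product of nonzero
composites, of transcendence degree at most `r`, of polynomials of depth `D` over polynomials
with at most `s` monomials. The polynomials computed by oblivious branching programs of width `w`
which read every variable at most `k` times, in any order, have depth `1` over single variables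
(`s = 1`). -/
theorem result :
    (∀ w D r : ℕ, ∃ k m : ℕ, ∀ n d s : ℕ,
      (points n m ((s + 2) ^ k) d).card ≤
        ((s + 2) ^ k * d + 1) * ((d + 1) * (n * d + 1)) ^ m ∧
      (∀ p ∈ points n m ((s + 2) ^ k) d, ∀ i,
        |p i| ≤ ((2 ^ (n * (s + 2) ^ k * d) + m * d * (n * d + n) ^ (n - 1) : ℕ) : ℤ)) ∧
      ∀ (f : MvPolynomial (Fin n) ℂ) (J : ℕ) (F : Fin J → MvPolynomial (Fin n) ℂ),
        (∀ j, Composite w s D r (F j)) → (∀ j, F j ≠ 0) → f ∣ ∏ j, F j → f.totalDegree ≤ d →
        ∃ p ∈ points n m ((s + 2) ^ k) d, MvPolynomial.eval (fun i => (p i : ℂ)) f ≠ 0) ∧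
    ∀ (n w k l : ℕ) (a : Fin l → Fin n) (M : Fin l → Matrix (Fin w) (Fin w) (Polynomial ℂ))
      (u v : Fin w → ℂ), (∀ i, (Finset.univ.filter fun t => a t = i).card ≤ k) →
      Comp (w + k + 1) 1 1 (oblivious a M u v) := by
  refine ⟨?_, fun n w k l a M u v ha => oblivious_mem a ha M u v⟩
  intro w D r
  obtain ⟨k, m, hm⟩ := composite_hit w D r
  refine ⟨k, m, fun n d s => ⟨Pool.Agent.H626R2.Loc.pointsE_card n m ((s + 2) ^ k) d,
    fun p hp i => Pool.Agent.H626R2.Loc.pointsE_bound n m ((s + 2) ^ k) d p hp i, ?_⟩⟩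
  intro f J F hF hF0 hdvd hd
  refine exists_point (fun hz => ?_) hd
  obtain ⟨g, hg⟩ := hdvd
  have h2 : evG ℂ (base ℂ n ((s + 2) ^ k)) m (∏ j, F j) = 0 := by
    rw [hg, map_mul, hz, zero_mul]
  rw [map_prod] at h2
  obtain ⟨j, _, hj⟩ := Finset.prod_eq_zero_iff.1 h2
  exact hm n s (F j) (hF j) (hF0 j) hj

end Pool.Agent.Results.MP_e2be99_lc.BoundedReadPrograms
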