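import Mathlib
import Pool.Agent.H530R2.Gen2

/-!
# Polynomial-time identity testing of formulas over branching programs

We give a deterministic identity test with polynomially many evaluations, for all constants, for
arithmetic formulas of any size and depth whose leaves are computed by oblivious algebraic
branching programs of width `w` (or nested such programs, to constant depth), such that every
program reads every variable at most `w` times, in any order, and every variable occurs in at most
`w` leaves. No multilinearity is assumed. The test is not blackbox: it first computes a point `σ`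
at which no partial derivative of a gate vanishes, unless it is the zero polynomial, for the
formula and its modifications with one subformula replaced by `0` or `1`, by going through these
polynomials, those of subformulas first (`Run`). The explicit set of points `σ + p`,
`p ∈ points n m d`, then hits all sums of `k` products of any number of factors, where every
factor is a polynomial in `w` of the formulas, and all polynomials in such products of
transcendence degree at most `k`.

The proof: if no nonzero partial derivative of a gate vanishes at the origin `σ`, then it does not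
belong to any of the ideals of the generator with origin `σ`, and the theorem `TreeSeeds.all` on
polynomials in boundedly many formulas applies to boundedly many seeds. Its hypothesis on the
leaves is the theorem on nested programs reading every variable boundedly often of
`MP_e2be99_lc.BoundedReadPrograms`. This shows as well that the search for the next point
succeeds. The local-to-global principle for the algebraic independence of products
(`Pool.Agent.H626R2.Loc`, by helper626 and others) gives the sums of products.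
-/

namespace Pool.Agent.Results.MP_e2be99_lc.FormulasOverPrograms

open MvPolynomial

/-- Formulas in `n` variables: the leaves are polynomials, a gate computes
`c₀ + c₁ a + c₂ b + c₃ a b` from the values `a`, `b` of its arguments (in particular `a + b`,
`a - b` and `a b`). -/
inductive Formula (n : ℕ) : Type
  | leaf (g : MvPolynomial (Fin n) ℂ) : Formula n
  | gate (c₀ c₁ c₂ c₃ : ℂ) (a b : Formula n) : Formula n

variable {n : ℕ}

/-- the polynomial computed by a formula -/
noncomputable def Formula.value : Formula n → MvPolynomial (Fin n) ℂ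
  | .leaf g => g
  | .gate c₀ c₁ c₂ c₃ a b => C c₀ + C c₁ * a.value + C c₂ * b.value + C c₃ * (a.value * b.value)

open Classical in
/-- the number of leaves in which the variable `x` occurs -/
noncomputable def Formula.reads : Formula n → Fin n → ℕ
  | .leaf g, x => if x ∈ g.vars then 1 else 0
  | .gate _ _ _ _ a b, x => a.reads x + b.reads x

/-- all leaves have the property `L` -/
def Formula.Leaves (L : MvPolynomial (Fin n) ℂ → Prop) : Formula n → Prop
  | .leaf g => L g
  | .gate _ _ _ _ a b => a.Leaves L ∧ b.Leaves L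

/-- the number of leaves -/
def Formula.size : Formula n → ℕ
  | .leaf _ => 1
  | .gate _ _ _ _ a b => a.size + b.size

/-- the partial derivatives of the gates with respect to their arguments (as polynomials in the
variables), those of subformulas first -/
noncomputable def Formula.partials : Formula n → List (MvPolynomial (Fin n) ℂ)
  | .leaf _ => []
  | .gate _ c₁ c₂ c₃ a b => a.partials ++ b.partials ++
      [C c₁ + C c₃ * b.value, C c₂ + C c₃ * a.value]

/-- the formula, and the formulas which arise from it by replacing one subformula by `0` or `1` -/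
noncomputable def Formula.holes : Formula n → List (Formula n)
  | .leaf g => [.leaf g, .leaf (C 0), .leaf (C 1)]
  | .gate c₀ c₁ c₂ c₃ a b => [.gate c₀ c₁ c₂ c₃ a b, .leaf (C 0), .leaf (C 1)] ++
      (a.holes.map (fun a' => .gate c₀ c₁ c₂ c₃ a' b) ++
        b.holes.map (fun b' => .gate c₀ c₁ c₂ c₃ a b'))

/-- the subformulas, and the formulas which arise from them by replacing one subformula by `0` or
`1` -/
noncomputable def Formula.segs : Formula n → List (Formula n)
  | .leaf g => (Formula.leaf g).holes
  | .gate c₀ c₁ c₂ c₃ a b => (Formula.gate c₀ c₁ c₂ c₃ a b).holes ++ (a.segs ++ b.segs)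

/-- the polynomials tested one after the other -/
noncomputable def tests (l : List (Formula n)) : List (MvPolynomial (Fin n) ℂ) :=
  l.flatMap fun E => E.segs.flatMap Formula.partials

/-- `Run S L σ K`: a run of the search over the finite set `S` of points. It starts at the point
`0`. For every polynomial `g` of the list `L` it looks for a point `p ∈ S` such that neither `g`
nor one of the polynomials of `K` (those found to be nonzero so far) vanishes at `σ + p`. If there
is such a point, it moves to `σ + p` and adds `g` to `K`, otherwise it goes on with the next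
polynomial. -/
inductive Run (S : Finset (Fin n → ℤ)) : List (MvPolynomial (Fin n) ℂ) → (Fin n → ℤ) →
    List (MvPolynomial (Fin n) ℂ) → Prop
  | start : Run S [] 0 []
  | skip {L K : List (MvPolynomial (Fin n) ℂ)} {σ : Fin n → ℤ} (g : MvPolynomial (Fin n) ℂ) :
      Run S L σ K → (∀ p ∈ S, ∃ h ∈ g :: K, eval (fun i => ((σ i + p i : ℤ) : ℂ)) h = 0) →
      Run S (L ++ [g]) σ K
  | move {L K : List (MvPolynomial (Fin n) ℂ)} {σ : Fin n → ℤ} (g : MvPolynomial (Fin n) ℂ)
      (p : Fin n → ℤ) : Run S L σ K → p ∈ S →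
      (∀ h ∈ g :: K, eval (fun i => ((σ i + p i : ℤ) : ℂ)) h ≠ 0) →
      Run S (L ++ [g]) (σ + p) (g :: K)

/-- The contents of `u` registers after `b` steps. The registers start with the constants `c₀`;
step `b` multiplies the vector of the contents by the matrix `M b`. -/
noncomputable def contents {n u : ℕ} (c₀ : Fin u → ℂ)
    (M : ℕ → Matrix (Fin u) (Fin u) (MvPolynomial (Fin n) ℂ)) : ℕ → Fin u → MvPolynomial (Fin n) ℂ
  | 0 => fun j => C (c₀ j)
  | b + 1 => Matrix.vecMul (contents c₀ M b) (M b)

/-- `Abp w s D f`: the polynomial `f` is computed with depth `D`.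
* Depth `0` (leaves): univariate polynomials, and polynomials which have at most `2 ^ s` monomials
  or all of whose monomials involve at most `s` variables, and in which every variable occurs with
  at most `w` different exponents (for instance those of degree less than `w` in each variable).
* `program` (depth `D + 1`): a polynomial `P` in the contents of the at most `w` registers of a
  linear program of any length `R`, whose matrices have entries of depth `D`, where every variable
  occurs in at most `w` of the matrices `M 0, …, M (R - 1)`. -/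
inductive Abp {n : ℕ} (w s : ℕ) : ℕ → MvPolynomial (Fin n) ℂ → Prop
  | univariate (p : Polynomial ℂ) (i : Fin n) : Abp w s 0 (Polynomial.aeval (X i) p)
  | leaf {f : MvPolynomial (Fin n) ℂ} :
      (f.support.card ≤ 2 ^ s ∨ ∀ a ∈ f.support, a.support.card ≤ s) →
      (∀ i, (f.support.image fun a => a i).card ≤ w) → Abp w s 0 f
  | program {D u : ℕ} (c₀ : Fin u → ℂ)
      (M : ℕ → Matrix (Fin u) (Fin u) (MvPolynomial (Fin n) ℂ)) (R : ℕ)
      (P : MvPolynomial (Fin u) ℂ) : u ≤ w →
      (∀ x, ((Finset.range R).filter fun b => ∃ i j, x ∈ (M b i j).vars).card ≤ w) →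
      (∀ b i j, Abp w s D (M b i j)) → Abp w s (D + 1) (aeval (contents c₀ M R) P)

/-- a polynomial in `w` formulas of the list `l` -/
def Factor (l : List (Formula n)) (w : ℕ) (g : MvPolynomial (Fin n) ℂ) : Prop :=
  ∃ (E : Fin w → Formula n) (P : MvPolynomial (Fin w) ℂ),
    (∀ i, E i ∈ l) ∧ g = aeval (fun i => (E i).value) P

/-- a polynomial in finitely many products of any number of members of `Factor l w`, no `κ + 1`
of which are algebraically independent -/
def Sums (l : List (Formula n)) (w κ : ℕ) (f : MvPolynomial (Fin n) ℂ) : Prop :=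
  ∃ (N : ℕ) (T : Fin N → Multiset (MvPolynomial (Fin n) ℂ)), (∀ i, ∀ g ∈ T i, Factor l w g) ∧
    (∀ u : Fin (κ + 1) → Fin N, ¬ AlgebraicIndependent ℂ (fun a => (T (u a)).prod)) ∧
    f ∈ Algebra.adjoin ℂ (Set.range fun i => (T i).prod)

/-- The point with seeds `y, z ∈ ℕ^m`: its `i`-th coordinate is
`∑_l y_l ∏_{k ≠ i} (z_l - k)` (the Shpilka–Volkovich generator with nodes `0, …, n-1`). -/
def point (n m : ℕ) (y z : Fin m → ℕ) : Fin n → ℤ :=
  fun i => ∑ l : Fin m, (y l : ℤ) * ∏ k ∈ Finset.univ.erase i, ((z l : ℤ) - (k.val : ℤ))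

/-- The explicit set of all points with seeds `y ∈ {0,…,d}^m`, `z ∈ {0,…,nd}^m`. -/
def points (n m d : ℕ) : Finset (Fin n → ℤ) :=
  ((Fintype.piFinset fun _ : Fin m => Finset.range (d + 1)) ×ˢ
    (Fintype.piFinset fun _ : Fin m => Finset.range (n * d + 1))).image
    fun yz => point n m yz.1 yz.2

/-- The oblivious branching program `u ⬝ M_0(x_{a 0}) M_1(x_{a 1}) ⋯ M_{l-1}(x_{a (l-1)}) ⬝ v` of
width `w`, with matrices of univariate polynomials, which reads the variables in the order
`a 0, a 1, …, a (l-1)`. -/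
noncomputable def oblivious {n w l : ℕ} (a : Fin l → Fin n)
    (M : Fin l → Matrix (Fin w) (Fin w) (Polynomial ℂ)) (u v : Fin w → ℂ) :
    MvPolynomial (Fin n) ℂ :=
  ∑ i, ∑ j, C (u i) * (List.ofFn fun t : Fin l =>
    (M t).map (Polynomial.aeval (X (a t) : MvPolynomial (Fin n) ℂ))).prod i j * C (v j)

open Pool.Agent.H530R2

/-- the families of classes -/
noncomputable def famD : ℕ → Fam ℂ
  | 0 => baseFam ℂ
  | D + 1 => (famD D).next

/-- the parameter of the classes -/
noncomputable def bd (w : ℕ) : ℕ → ℕ
  | 0 => 1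
  | D + 1 => bd w D + w * w + w

/-- the number of coefficients -/
def nc (w k : ℕ) : ℕ → ℕ
  | 0 => (w + 1) ^ k
  | D + 1 => (k * w) * (w * w + w * w * nc w k D) + w * w

theorem contents_eq {n u : ℕ} (c₀ : Fin u → ℂ)
    (M : ℕ → Matrix (Fin u) (Fin u) (MvPolynomial (Fin n) ℂ)) (b : ℕ) :
    contents c₀ M b = lin (fun j => C (c₀ j)) M b := by
  induction b with
  | zero => rfl
  | succ b ih => simp only [contents, lin, ih]

theorem abp_mem {n w s D k : ℕ} {f : MvPolynomial (Fin n) ℂ} (h : Abp w s D f) :
    f ∈ (famD D).K s n (bd w D) ∧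
      ∀ A : Finset (Fin n), A.card ≤ k → Gn ((famD D).K s n (bd w D)) A (nc w k D) f := by
  classical
  have hsub : ∀ g : MvPolynomial (Fin n) ℂ, LS (s + 1) 1 g → g ∈ (famD 0).K s n (bd w 0) :=
    fun g hg => Pol.single le_rfl hg
  induction h with
  | univariate p i =>
    have hs : ∀ x ∈ (Polynomial.aeval (X i : MvPolynomial (Fin n) ℂ) p).support,
        x.support ⊆ {i} := by
      intro x hx
      rw [Polynomial.aeval_eq_sum_range] at hx
      obtain ⟨e, _, he⟩ := Finset.mem_biUnion.1 (support_sum hx)
      have h1 := support_smul he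
      rw [X_pow_eq_monomial] at h1
      rw [Finset.mem_singleton.1 (support_monomial_subset h1)]
      exact Finsupp.support_single_subset
    have hLS : LS (s + 1) 1 (Polynomial.aeval (X i : MvPolynomial (Fin n) ℂ) p) := by
      refine ⟨{0}, by rw [Finset.card_singleton]; exact Nat.one_le_two_pow, fun x hx =>
        ⟨0, Finset.mem_singleton_self _, x, (zero_add x).symm, ?_⟩⟩
      refine (Finset.card_le_card (hs x hx)).trans ?_
      rw [Finset.card_singleton]
      omega
    refine ⟨hsub _ hLS, fun A hA => ?_⟩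
    have hsupp : Polynomial.aeval (X i : MvPolynomial (Fin n) ℂ) p ∈
        supported ℂ ({i} : Set (Fin n)) := by
      rw [mem_supported]
      intro x hx
      obtain ⟨e, he, hxe⟩ := mem_vars x |>.1 (Finset.mem_coe.1 hx)
      exact Finset.mem_singleton.1 (hs e he hxe)
    by_cases hi : i ∈ A
    · exact Gn.supp (supported_mono (by
        rintro x rfl
        exact Finset.mem_coe.2 hi) hsupp)
    · refine Gn.self (hsub _ hLS) (supported_mono ?_ hsupp) ?_
      · rintro x rfl
        exact hi
      · exact Nat.one_le_pow _ _ (Nat.succ_pos w)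
  | @leaf f hf hw =>
    have hLS : LS (s + 1) 1 f := by
      rcases hf with hf | hf
      · refine ⟨f.support, ?_, fun x hx => ⟨x, hx, 0, (add_zero x).symm, by simp⟩⟩
        exact hf.trans (Nat.pow_le_pow_right (by omega) (by omega))
      · refine ⟨{0}, by rw [Finset.card_singleton]; exact Nat.one_le_two_pow, fun x hx =>
          ⟨0, Finset.mem_singleton_self _, x, (zero_add x).symm, ?_⟩⟩
        have := hf x hx
        omega
    refine ⟨hsub _ hLS, fun A hA => ?_⟩
    exact (leaf_gn hLS hw hA).mono (fun g hg => hsub g hg) le_rfl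
  | @program D u c₀ M R P hu hocc _ ih =>
    have hmv : ∀ b x, x ∈ mv (M b) ↔ ∃ i j, x ∈ (M b i j).vars := fun b x => mem_mv
    have hκ : ∀ x, ((Finset.range R).filter fun b => x ∈ mv (M b)).card ≤ w := by
      intro x
      simp only [hmv]
      convert hocc x
    have huu : u * u ≤ w * w := Nat.mul_le_mul hu hu
    have hc : ∀ i, ∃ y, (fun j => C (c₀ j) : Fin u → MvPolynomial (Fin n) ℂ) i = C y :=
      fun i => ⟨c₀ i, rfl⟩
    have hbd : 1 ≤ bd w D := by
      clear * -
      induction D with
      | zero => exact le_rfl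
      | succ D ih => simp only [bd]; omega
    have hf : aeval (contents c₀ M R) P ∈
        Algebra.adjoin ℂ (Set.range (lin (fun j => C (c₀ j)) M R)) := by
      rw [contents_eq, Algebra.adjoin_range_eq_range_aeval]
      exact ⟨P, rfl⟩
    constructor
    · exact lin_out (κ := w) hc (fun b i j => (ih b i j).1) R hκ
        (by simp only [bd]; omega) (by simp only [bd]; omega) (by simp only [bd]; omega) hf
    · intro A hA
      refine (Gn.lin (k := k) (κ := w) (W' := bd w (D + 1)) hc (fun b i j => (ih b i j).1) R hκ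
        (by simp only [bd]; omega) (by simp only [bd]; omega) (by simp only [bd]; omega)
        (by simp only [bd]; omega) hA (fun b i j => (ih b i j).2 A hA) hf).mono
        (fun g hg => hg) ?_
      simp only [nc]
      exact Nat.add_le_add (Nat.mul_le_mul_left _
        (Nat.add_le_add huu (Nat.mul_le_mul_right _ huu))) huu

theorem oblivious_mem {n w k l : ℕ} (a : Fin l → Fin n)
    (ha : ∀ i, (Finset.univ.filter fun t => a t = i).card ≤ k)
    (M : Fin l → Matrix (Fin w) (Fin w) (Polynomial ℂ)) (u v : Fin w → ℂ) :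
    Abp (w + k) 0 1 (oblivious a M u v) := by
  classical
  set N : ℕ → Matrix (Fin w) (Fin w) (MvPolynomial (Fin n) ℂ) :=
    fun b => if h : b < l then (M ⟨b, h⟩).map
      (Polynomial.aeval (X (a ⟨b, h⟩) : MvPolynomial (Fin n) ℂ)) else 0 with hN
  have key : ∀ b : ℕ, ∀ hb : b ≤ l, ∀ j, contents u N b j =
      ∑ i, C (u i) * (List.ofFn fun t : Fin b => (M (Fin.castLE hb t)).map
        (Polynomial.aeval (X (a (Fin.castLE hb t)) : MvPolynomial (Fin n) ℂ))).prod i j := by
    intro b
    induction b with
    | zero =>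
      intro _ j
      simp only [contents, List.ofFn_zero, List.prod_nil, Matrix.one_apply]
      rw [Finset.sum_eq_single j]
      · rw [if_pos rfl, mul_one]
      · intro i _ hij
        rw [if_neg hij, mul_zero]
      · intro h
        exact absurd (Finset.mem_univ j) h
    | succ b ih =>
      intro hb j
      have hb' : b < l := hb
      have h1 : contents u N (b + 1) j = ∑ q, contents u N b q *
          Polynomial.aeval (X (a ⟨b, hb'⟩) : MvPolynomial (Fin n) ℂ) (M ⟨b, hb'⟩ q j) := by
        simp only [contents, Matrix.vecMul, dotProduct, hN, dif_pos hb', Matrix.map_apply]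
      rw [h1]
      simp only [ih (by omega : b ≤ l)]
      simp only [List.ofFn_succ', List.concat_eq_append, List.prod_append, List.prod_singleton,
        Matrix.mul_apply, Finset.mul_sum, Finset.sum_mul]
      rw [Finset.sum_comm]
      apply Finset.sum_congr rfl
      intro i _
      apply Finset.sum_congr rfl
      intro q _
      rw [mul_assoc]
      rfl
  have h2 : oblivious a M u v =
      aeval (contents u N l) (∑ j, X j * C (v j) : MvPolynomial (Fin w) ℂ) := by
    rw [map_sum]
    unfold oblivious
    rw [Finset.sum_comm]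
    apply Finset.sum_congr rfl
    intro j _
    rw [map_mul, aeval_X, key l le_rfl j, Finset.sum_mul]
    apply Finset.sum_congr rfl
    intro i _
    simp only [algHom_C]
    rfl
  have hvars : ∀ b i j, ∀ x ∈ (N b i j).vars, ∃ h : b < l, x = a ⟨b, h⟩ := by
    intro b i j x hx
    by_cases h : b < l
    · refine ⟨h, ?_⟩
      have h3 : N b i j ∈ supported ℂ ({a ⟨b, h⟩} : Set (Fin n)) := by
        simp only [hN, dif_pos h, Matrix.map_apply]
        rw [Polynomial.aeval_eq_sum_range]
        refine Subalgebra.sum_mem _ fun e _ => Subalgebra.smul_mem _ (Subalgebra.pow_mem _ ?_ _) _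
        exact X_mem_supported.2 rfl
      exact mem_supported.1 h3 (Finset.mem_coe.2 hx)
    · simp only [hN, dif_neg h, Matrix.zero_apply] at hx
      simp at hx
  rw [h2]
  refine Abp.program u N l _ (by omega) ?_ ?_
  · intro x
    refine le_trans ?_ ((ha x).trans (show k ≤ w + k by omega))
    refine le_trans (Finset.card_le_card (t := (Finset.univ.filter fun t => a t = x).image
      (fun t : Fin l => (t : ℕ))) ?_) Finset.card_image_le
    intro b hb
    rw [Finset.mem_filter, Finset.mem_range] at hb
    obtain ⟨hb1, i, j, hij⟩ := hb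
    obtain ⟨h, hx⟩ := hvars b i j x hij
    exact Finset.mem_image.2 ⟨⟨b, hb1⟩, Finset.mem_filter.2 ⟨Finset.mem_univ _, hx.symm⟩, rfl⟩
  · intro b i j
    by_cases h : b < l
    · simp only [hN, dif_pos h, Matrix.map_apply]
      exact Abp.univariate _ _
    · simp only [hN, dif_neg h, Matrix.zero_apply]
      exact Abp.leaf (Or.inl (by simp)) (fun i => by simp)

theorem abp_lift {n w s D : ℕ} (hw : 1 ≤ w) {f : MvPolynomial (Fin n) ℂ} (h : Abp w s D f) :
    Abp w s (D + 1) f := by
  have h1 := Abp.program (w := w) (s := s) (D := D) (u := 1) (fun _ => 1) (fun _ => fun _ _ => f) 1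
    (X 0) hw ?_ (fun _ _ _ => h)
  · have h2 : aeval (contents (fun _ : Fin 1 => (1 : ℂ)) (fun _ => fun _ _ => f) 1)
        (X 0 : MvPolynomial (Fin 1) ℂ) = f := by
      rw [aeval_X]
      show ∑ j : Fin 1, C (1 : ℂ) * f = f
      rw [Fin.sum_univ_one, C_1, one_mul]
    rwa [h2] at h1
  · intro x
    refine (Finset.card_filter_le _ _).trans ?_
    rw [Finset.card_range]
    exact hw

/-- the leaves as a class: their coefficients with respect to few variables are generated by few
members of the family -/
def LfD (w s D κ : ℕ) : Set (MvPolynomial (Fin n) ℂ) :=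
  {g | g ∈ (famD D).K s n (bd w D + (famD D).c0) ∧ ∀ A : Finset (Fin n), A.card ≤ κ →
    Gn ((famD D).K s n (bd w D + (famD D).c0)) A (nc w κ D) g}

theorem LfD.const {w s D κ : ℕ} (y : ℂ) : (C y : MvPolynomial (Fin n) ℂ) ∈ LfD w s D κ :=
  ⟨(famD D).const (Nat.le_add_left _ _) y, fun A _ => Gn.supp (Subalgebra.algebraMap_mem _ y)⟩

theorem abp_lf {w s D κ : ℕ} {g : MvPolynomial (Fin n) ℂ} (h : Abp w s D g) :
    g ∈ LfD w s D κ := by
  obtain ⟨h1, h2⟩ := abp_mem (k := κ) h
  exact ⟨(famD D).mono (Nat.le_add_right _ _) h1, fun A hA =>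
    (h2 A hA).mono ((famD D).mono (Nat.le_add_right _ _)) le_rfl⟩

theorem sh_famD (D : ℕ) (n s : ℕ) (σ : Fin n → ℂ) :
    (shVan (F := ℂ) _ (natInj n) σ).scale (s + 1) (Nat.le_add_left 1 s) ∈ (famD D).Ok s n := by
  induction D with
  | zero => exact sh_ok n s σ
  | succ D ih => exact ih

/-- translation to the formulas of `Pool.Agent.H530R2` -/
noncomputable def toTr : Formula n → Tr ℂ n
  | .leaf g => .leaf g
  | .gate c₀ c₁ c₂ c₃ a b =>
    .gate (C c₀ + C c₁ * X 0 + C c₂ * X 1 + C c₃ * (X 0 * X 1)) (toTr a) (toTr b)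

theorem toTr_val (E : Formula n) : (toTr E).val = E.value := by
  induction E with
  | leaf g => rfl
  | gate c₀ c₁ c₂ c₃ a b iha ihb =>
    simp only [toTr, Tr.val, Formula.value, map_add, map_mul, algHom_C, aeval_X, iha, ihb]
    rfl

theorem toTr_occ (E : Formula n) (x : Fin n) : (toTr E).occ x = E.reads x := by
  induction E with
  | leaf g => simp only [toTr, Tr.occ, Formula.reads]
  | gate c₀ c₁ c₂ c₃ a b iha ihb => simp only [toTr, Tr.occ, Formula.reads, iha, ihb]

theorem toTr_ml (E : Formula n) : (toTr E).ML := by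
  induction E with
  | leaf g => trivial
  | gate c₀ c₁ c₂ c₃ a b iha ihb => exact ⟨iha, ihb, c₀, c₁, c₂, c₃, rfl⟩

theorem toTr_size (E : Formula n) : (toTr E).size = E.size := by
  induction E with
  | leaf g => rfl
  | gate c₀ c₁ c₂ c₃ a b iha ihb => simp only [toTr, Tr.size, Formula.size, iha, ihb]

theorem toTr_lv {w s D κ : ℕ} (E : Formula n) (h : E.Leaves (Abp w s D)) :
    (toTr E).Lv (LfD w s D κ) := by
  induction E with
  | leaf g => exact abp_lf h
  | gate c₀ c₁ c₂ c₃ a b iha ihb => exact ⟨iha h.1, ihb h.2⟩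

theorem toTr_partials (E : Formula n) : (toTr E).gps = E.partials := by
  induction E with
  | leaf g => rfl
  | gate c₀ c₁ c₂ c₃ a b iha ihb =>
    simp only [toTr, Tr.gps, Formula.partials, iha, ihb, ML_partial0, ML_partial1, toTr_val]

theorem toTr_holes (E : Formula n) : (toTr E).holes = E.holes.map toTr := by
  induction E with
  | leaf g => rfl
  | gate c₀ c₁ c₂ c₃ a b iha ihb =>
    simp only [toTr, Tr.holes, Formula.holes, iha, ihb, List.map_append, List.map_cons,
      List.map_nil, List.map_map]
    rfl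

theorem toTr_segs (E : Formula n) : (toTr E).segs = E.segs.map toTr := by
  induction E with
  | leaf g => rfl
  | gate c₀ c₁ c₂ c₃ a b iha ihb =>
    simp only [Formula.segs, List.map_append, ← toTr_holes, ← iha, ← ihb]
    rfl

section run

variable {S : Finset (Fin n → ℤ)}

theorem Run.keep {L K : List (MvPolynomial (Fin n) ℂ)} {σ : Fin n → ℤ} (h : Run S L σ K) :
    (∀ g ∈ K, eval (fun i => ((σ i : ℤ) : ℂ)) g ≠ 0) ∧
      (K.map totalDegree).sum ≤ (L.map totalDegree).sum := by
  induction h with
  | start => simp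
  | skip g _ _ ih =>
    refine ⟨ih.1, ?_⟩
    rw [List.map_append, List.sum_append]
    exact ih.2.trans (Nat.le_add_right _ _)
  | move g p _ _ h ih =>
    refine ⟨fun g' hg' => h g' hg', ?_⟩
    rw [List.map_append, List.sum_append, List.map_cons, List.sum_cons]
    simp only [List.map_cons, List.map_nil, List.sum_cons, List.sum_nil]
    omega

theorem Run.snoc {L K : List (MvPolynomial (Fin n) ℂ)} {σ : Fin n → ℤ}
    {g : MvPolynomial (Fin n) ℂ} (h : Run S (L ++ [g]) σ K) :
    ∃ (σ₀ : Fin n → ℤ) (K₀ : List (MvPolynomial (Fin n) ℂ)), Run S L σ₀ K₀ ∧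
      ((K = K₀ ∧ ∀ p ∈ S, ∃ h ∈ g :: K₀, eval (fun i => ((σ₀ i + p i : ℤ) : ℂ)) h = 0) ∨
        K = g :: K₀) := by
  generalize hL : L ++ [g] = L' at h
  cases h with
  | start => simp at hL
  | skip g' h1 h2 =>
    obtain ⟨rfl, h3⟩ := List.append_inj' hL rfl
    obtain rfl : g = g' := by simpa using h3
    exact ⟨_, _, h1, Or.inl ⟨rfl, h2⟩⟩
  | move g' p h1 h2 h3 =>
    obtain ⟨rfl, h4⟩ := List.append_inj' hL rfl
    obtain rfl : g = g' := by simpa using h4
    exact ⟨_, _, h1, Or.inr rfl⟩

/-- every list has a run -/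
theorem exists_run (S : Finset (Fin n → ℤ)) (L : List (MvPolynomial (Fin n) ℂ)) :
    ∃ σ K, Run S L σ K := by
  induction L using List.reverseRecOn with
  | nil => exact ⟨0, [], .start⟩
  | append_singleton L g ih =>
    obtain ⟨σ, K, h⟩ := ih
    by_cases hp : ∃ p ∈ S, ∀ h ∈ g :: K, eval (fun i => ((σ i + p i : ℤ) : ℂ)) h ≠ 0
    · obtain ⟨p, hpS, hp⟩ := hp
      exact ⟨σ + p, g :: K, .move g p h hpS hp⟩
    · refine ⟨σ, K, .skip g h ?_⟩
      intro p hpS
      by_contra hc
      apply hp
      refine ⟨p, hpS, fun h hh he => hc ⟨h, hh, he⟩⟩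

theorem Run.bound {B : ℕ} (hB : ∀ p ∈ S, ∀ i, |p i| ≤ (B : ℤ))
    {L K : List (MvPolynomial (Fin n) ℂ)} {σ : Fin n → ℤ} (h : Run S L σ K) (i : Fin n) :
    |σ i| ≤ ((L.length * B : ℕ) : ℤ) := by
  induction h with
  | start => simp
  | skip g _ _ ih =>
    refine ih.trans ?_
    rw [List.length_append]
    push_cast
    nlinarith
  | move g p _ hp _ ih =>
    rw [List.length_append, List.length_singleton]
    have h1 := hB p hp i
    rw [Pi.add_apply]
    refine (abs_add_le _ _).trans ?_
    push_cast at ih ⊢
    nlinarith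

end run

section adm

/-- the condition on the formulas -/
def GoodT (Q : Set (MvPolynomial (Fin n) ℂ)) (k : ℕ) (T : Tr ℂ n) : Prop :=
  T.Lv Q ∧ ∀ i, T.occ i ≤ k

/-- lists of polynomials in two formulas whose gate derivatives come before -/
inductive Adm (Q : Set (MvPolynomial (Fin n) ℂ)) (k : ℕ) : List (MvPolynomial (Fin n) ℂ) → Prop
  | nil : Adm Q k []
  | snoc {L : List (MvPolynomial (Fin n) ℂ)} {g : MvPolynomial (Fin n) ℂ} (a b : Tr ℂ n) :
      Adm Q k L → GoodT Q k a → GoodT Q k b → (∀ x ∈ a.gps, x ∈ L) → (∀ x ∈ b.gps, x ∈ L) →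
      g ∈ Algebra.adjoin ℂ ({a.val, b.val} : Set (MvPolynomial (Fin n) ℂ)) → Adm Q k (L ++ [g])

theorem mem_pair (γ : MvPolynomial (Fin 2) ℂ) (a b : MvPolynomial (Fin n) ℂ) :
    aeval ![a, b] γ ∈ Algebra.adjoin ℂ ({a, b} : Set (MvPolynomial (Fin n) ℂ)) := by
  have h5 : aeval ![a, b] γ ∈ Algebra.adjoin ℂ (Set.range ![a, b]) := by
    rw [Algebra.adjoin_range_eq_range_aeval]
    exact ⟨γ, rfl⟩
  refine Algebra.adjoin_mono ?_ h5
  rintro _ ⟨i, rfl⟩
  fin_cases i
  · exact Or.inl rfl
  · exact Or.inr rfl

theorem Adm.gps {Q : Set (MvPolynomial (Fin n) ℂ)} {k : ℕ} (T : Tr ℂ n) (hT : GoodT Q k T) :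
    ∀ {L : List (MvPolynomial (Fin n) ℂ)}, Adm Q k L → Adm Q k (L ++ T.gps) := by
  induction T with
  | leaf g => exact fun {L} h => by rwa [Tr.gps, List.append_nil]
  | gate γ a b iha ihb =>
    intro L h
    have ha : GoodT Q k a := ⟨hT.1.1, fun i => (Nat.le_add_right _ _).trans (hT.2 i)⟩
    have hb : GoodT Q k b := ⟨hT.1.2, fun i => (Nat.le_add_left _ _).trans (hT.2 i)⟩
    have h2 := ihb hb (iha ha h)
    have hsa : ∀ x ∈ a.gps, x ∈ L ++ a.gps ++ b.gps := fun x hx =>
      List.mem_append.2 (Or.inl (List.mem_append.2 (Or.inr hx)))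
    have hsb : ∀ x ∈ b.gps, x ∈ L ++ a.gps ++ b.gps := fun x hx => List.mem_append.2 (Or.inr hx)
    have h3 := Adm.snoc (g := aeval ![a.val, b.val] (pderiv 0 γ)) a b h2 ha hb hsa hsb
      (mem_pair _ _ _)
    have h4 := Adm.snoc (g := aeval ![a.val, b.val] (pderiv 1 γ)) a b h3 ha hb
      (fun x hx => List.mem_append.2 (Or.inl (hsa x hx)))
      (fun x hx => List.mem_append.2 (Or.inl (hsb x hx))) (mem_pair _ _ _)
    have h5 : L ++ (Tr.gate γ a b).gps = L ++ a.gps ++ b.gps ++
        [aeval ![a.val, b.val] (pderiv 0 γ)] ++ [aeval ![a.val, b.val] (pderiv 1 γ)] := by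
      simp only [Tr.gps, List.append_assoc, List.cons_append, List.nil_append]
    rw [h5]
    exact h4

theorem Adm.flat {Q : Set (MvPolynomial (Fin n) ℂ)} {k : ℕ} (l : List (Tr ℂ n)) (hl : ∀ T ∈ l, GoodT Q k T) :
    ∀ {L : List (MvPolynomial (Fin n) ℂ)}, Adm Q k L → Adm Q k (L ++ l.flatMap Tr.gps) := by
  induction l with
  | nil => exact fun {L} h => by rwa [List.flatMap_nil, List.append_nil]
  | cons T l ih =>
    intro L h
    rw [List.flatMap_cons, ← List.append_assoc]
    exact ih (fun T' hT' => hl T' (List.mem_cons_of_mem _ hT'))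
      (Adm.gps T (hl T List.mem_cons_self) h)

theorem tsl_list_prod {M : ℕ} {σ : Fin n → ℂ} (l : List (MvPolynomial (Fin n) ℂ))
    (h : ∀ g ∈ l, tsl σ g ∉ genI (fun i : Fin n => ((i.val : ℕ) : ℂ)) M) :
    tsl σ l.prod ∉ genI (fun i : Fin n => ((i.val : ℕ) : ℂ)) M := by
  induction l with
  | nil =>
    rw [List.prod_nil, map_one]
    exact fun hc => (genI_prime _ M).ne_top ((Ideal.eq_top_iff_one _).2 hc)
  | cons g l ih =>
    rw [List.prod_cons, map_mul]
    intro hc
    rcases (genI_prime _ M).mem_or_mem hc with h1 | h1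
    · exact h g List.mem_cons_self h1
    · exact ih (fun g' hg' => h g' (List.mem_cons_of_mem _ hg')) h1

/-- all nonzero polynomials of the list are kept -/
theorem adm_run {Q : Set (MvPolynomial (Fin n) ℂ)} {k s m₀ M D : ℕ} (hM : m₀ * (s + 1) ≤ M)
    (hm : ∀ (σ : Fin n → ℂ) (T : Fin 2 → Tr ℂ n), (∀ q, (T q).Lv Q) →
      (∀ q i, (T q).occ i ≤ k) → (∀ q, ∀ g ∈ (T q).gps, g ≠ 0 → eval σ g ≠ 0) →
      ∀ f ∈ Algebra.adjoin ℂ (Set.range fun q => (T q).val), f ≠ 0 →
      tsl σ f ∉ genI (fun i : Fin n => ((i.val : ℕ) : ℂ)) (m₀ * (s + 1)))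
    {L : List (MvPolynomial (Fin n) ℂ)} (hL : Adm Q k L) : (L.map totalDegree).sum ≤ D →
    ∀ {σ : Fin n → ℤ} {K : List (MvPolynomial (Fin n) ℂ)}, Run (points n M D) L σ K →
    ∀ g ∈ L, g ≠ 0 → g ∈ K := by
  induction hL with
  | nil => exact fun _ σ K _ g hg => absurd hg List.not_mem_nil
  | @snoc L g a b _ ha hb hga hgb hg ih =>
    intro hD σ K hrun
    obtain ⟨σ₀, K₀, hrun₀, hK⟩ := hrun.snoc
    have hD' := hD
    rw [List.map_append, List.sum_append] at hD'
    have ih' := ih (by omega) hrun₀
    have hsub : ∀ x ∈ K₀, x ∈ K := by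
      rcases hK with ⟨rfl, _⟩ | rfl
      · exact fun x hx => hx
      · exact fun x hx => List.mem_cons_of_mem _ hx
    intro g' hg' hg'0
    rcases List.mem_append.1 hg' with h | h
    · exact hsub _ (ih' g' h hg'0)
    obtain rfl : g' = g := List.mem_singleton.1 h
    rcases hK with ⟨rfl, hno⟩ | rfl
    · exfalso
      obtain ⟨hkeep, hdeg⟩ := hrun₀.keep
      set σc : Fin n → ℂ := fun i => ((σ₀ i : ℤ) : ℂ) with hσc
      have h1 : tsl σc g' ∉ genI (fun i : Fin n => ((i.val : ℕ) : ℂ)) M := by
        intro hc
        refine hm σc ![a, b] ?_ ?_ ?_ g' ?_ hg'0 (genI_le _ hM hc)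
        · intro q; fin_cases q; exacts [ha.1, hb.1]
        · intro q; fin_cases q; exacts [ha.2, hb.2]
        · intro q
          fin_cases q
          · exact fun x hx hx0 => hkeep x (ih' x (hga x hx) hx0)
          · exact fun x hx hx0 => hkeep x (ih' x (hgb x hx) hx0)
        · refine Algebra.adjoin_mono ?_ hg
          rintro x (rfl | rfl)
          · exact ⟨0, rfl⟩
          · exact ⟨1, rfl⟩
      have h2 : ∀ x ∈ g' :: K, tsl σc x ∉ genI (fun i : Fin n => ((i.val : ℕ) : ℂ)) M := by
        intro x hx
        rcases List.mem_cons.1 hx with rfl | hx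
        · exact h1
        · intro hc
          exact hkeep x hx (shVan_zero _ (natInj n) σc ∅
            ((mem_shVan _ (natInj n) σc 0 x).2 (genI_le _ (Nat.zero_le M) hc)))
      have h3 := tsl_list_prod _ h2
      have h4 : (tsl σc (g' :: K).prod).totalDegree ≤ D := by
        refine (tsl_totalDegree _ _).trans ((totalDegree_list_prod _).trans ?_)
        rw [List.map_cons, List.sum_cons]
        simp only [List.map_cons, List.map_nil, List.sum_cons, List.sum_nil] at hD'
        omega
      obtain ⟨p, hp, hpe⟩ := exists_hit n M D _ h4 h3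
      rw [eval_tsl] at hpe
      obtain ⟨h, hh, hh0⟩ := hno p hp
      apply hpe
      have h5 : (fun i => (p i : ℂ) + σc i) = fun i => ((σ₀ i + p i : ℤ) : ℂ) := by
        funext i
        rw [hσc]
        push_cast
        ring
      rw [h5, map_list_prod]
      exact List.prod_eq_zero (List.mem_map.2 ⟨h, hh, hh0⟩)
    · exact List.mem_cons_self

theorem tests_eq (l : List (Formula n)) :
    tests l = (l.flatMap fun E => E.segs.map toTr).flatMap Tr.gps := by
  induction l with
  | nil => rfl
  | cons E l ih =>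
    have h1 : ∀ l' : List (Formula n), l'.flatMap Formula.partials =
        (l'.map toTr).flatMap Tr.gps := by
      intro l'
      induction l' with
      | nil => rfl
      | cons E' l' ih' =>
        rw [List.flatMap_cons, List.map_cons, List.flatMap_cons, ih', toTr_partials]
    rw [tests, List.flatMap_cons, List.flatMap_cons, List.flatMap_append, h1]
    congr 1

theorem hit_of_run {w D κ : ℕ} : ∃ m : ℕ, ∀ (n d s : ℕ) (l : List (Formula n)),
    (∀ E ∈ l, E.Leaves (Abp w s D) ∧ ∀ x, E.reads x ≤ w) →
    ((tests l).map totalDegree).sum ≤ d → ∀ (σ : Fin n → ℤ) (K : List (MvPolynomial (Fin n) ℂ)),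
    Run (points n (m * (s + 1)) d) (tests l) σ K → ∀ f : MvPolynomial (Fin n) ℂ,
    Sums l w κ f → f.totalDegree ≤ d → f ≠ 0 →
    ∃ p ∈ points n (m * (s + 1)) d, eval (fun i => ((σ i + p i : ℤ) : ℂ)) f ≠ 0 := by
  obtain ⟨m₀, hm₀⟩ := poly_hit_sh2 (F := ℂ) (famD D) (sh_famD D) (w + 1) 2
    (bd w D + (famD D).c0)
  obtain ⟨m₁, hm₁⟩ := tree_hit_sh2 (F := ℂ) (famD D) (sh_famD D) κ (w + 1) w (nc w κ D)
    (bd w D + (famD D).c0) (Nat.succ_pos w)
  refine ⟨m₀ + m₁, ?_⟩
  intro n d s l hl hD σ K hrun f hf hfD hf0
  have hseg : ∀ E ∈ l, ∀ T' ∈ (toTr E).segs,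
      GoodT ((famD D).K s n (bd w D + (famD D).c0)) (w + 1) T' := by
    intro E hE T' hT'
    have hr := Tr.segs_red hT'
    refine ⟨(hr.lv (fun y => (LfD.const (κ := κ) y)) (toTr_lv E (hl E hE).1)).mono
      (fun g hg => hg.1), fun i => (hr.occ i).trans ?_⟩
    rw [toTr_occ]
    exact ((hl E hE).2 i).trans (Nat.le_succ w)
  have hadm : Adm ((famD D).K s n (bd w D + (famD D).c0)) (w + 1) (tests l) := by
    rw [tests_eq]
    refine (Adm.flat _ ?_ (L := []) Adm.nil)
    intro T hT
    obtain ⟨E, hE, hT⟩ := List.mem_flatMap.1 hT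
    rw [← toTr_segs] at hT
    exact hseg E hE T hT
  have hall := adm_run (Nat.mul_le_mul_right (s + 1) (Nat.le_add_right m₀ m₁))
    (fun σ T h1 h2 h3 => hm₀ n s σ T h1 h2 h3) hadm hD hrun
  obtain ⟨hkeep, _⟩ := hrun.keep
  set σc : Fin n → ℂ := fun i => ((σ i : ℤ) : ℂ) with hσc
  have h1 := hm₁ n s σc (LfD w s D κ) (fun T => ∃ E ∈ l, T = toTr E) (fun g hg => hg.1)
    (fun y => LfD.const y) (fun A hA g hg => hg.2 A hA) ?_ f ?_ hf0
  · have h2 : tsl σc f ∉ genI (fun i : Fin n => ((i.val : ℕ) : ℂ)) ((m₀ + m₁) * (s + 1)) :=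
      fun hc => h1 (genI_le _ (Nat.mul_le_mul_right _ (Nat.le_add_left _ _)) hc)
    obtain ⟨p, hp, hpe⟩ := exists_hit n _ d _ ((tsl_totalDegree σc f).trans hfD) h2
    rw [eval_tsl] at hpe
    refine ⟨p, hp, ?_⟩
    have h5 : (fun i => (p i : ℂ) + σc i) = fun i => ((σ i + p i : ℤ) : ℂ) := by
      funext i
      rw [hσc]
      push_cast
      ring
    rwa [h5] at hpe
  · rintro T ⟨E, hE, rfl⟩
    refine ⟨toTr_ml E, toTr_lv E (hl E hE).1, fun i => ?_, ?_⟩
    · rw [toTr_occ]
      exact ((hl E hE).2 i).trans (Nat.le_succ w)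
    · intro T' hT' g hg hg0
      refine hkeep g (hall g ?_ hg0)
      rw [tests_eq]
      refine List.mem_flatMap.2 ⟨T', List.mem_flatMap.2 ⟨E, hE, ?_⟩, hg⟩
      rwa [← toTr_segs]
  · obtain ⟨N', T, hT, hdep, hmem⟩ := hf
    refine ⟨N', T, fun i g hg => ?_, hdep, hmem⟩
    obtain ⟨E, P, hE, rfl⟩ := hT i g hg
    refine ⟨fun i => toTr (E i), P, fun i => ⟨E i, hE i, rfl⟩, ?_⟩
    congr 1
    congr 1
    funext i
    exact (toTr_val _).symm

end adm

section count

theorem size_pos (E : Formula n) : 1 ≤ E.size := by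
  induction E with
  | leaf g => exact le_rfl
  | gate c₀ c₁ c₂ c₃ a b iha ihb => rw [Formula.size]; omega

theorem holes_length (E : Formula n) : E.holes.length + 3 ≤ 6 * E.size := by
  induction E with
  | leaf g => simp [Formula.holes, Formula.size]
  | gate c₀ c₁ c₂ c₃ a b iha ihb =>
    simp only [Formula.holes, Formula.size, List.length_append, List.length_map,
      List.length_cons, List.length_nil]
    omega

theorem segs_length (E : Formula n) : E.segs.length ≤ 6 * E.size ^ 2 := by
  induction E with
  | leaf g => simp [Formula.segs, Formula.holes, Formula.size]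
  | gate c₀ c₁ c₂ c₃ a b iha ihb =>
    have h1 := holes_length (Formula.gate c₀ c₁ c₂ c₃ a b)
    have ha := size_pos a
    have hb := size_pos b
    simp only [Formula.segs, List.length_append]
    have h2 : (Formula.gate c₀ c₁ c₂ c₃ a b).size = a.size + b.size := rfl
    rw [h2] at h1 ⊢
    nlinarith [Nat.mul_le_mul ha hb]

theorem partials_length (E : Formula n) : E.partials.length + 2 = 2 * E.size := by
  induction E with
  | leaf g => rfl
  | gate c₀ c₁ c₂ c₃ a b iha ihb =>
    simp only [Formula.partials, Formula.size, List.length_append, List.length_cons,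
      List.length_nil]
    omega

theorem holes_prop (δ : ℕ) (E : Formula n) : E.Leaves (fun g => g.totalDegree ≤ δ) →
    ∀ E' ∈ E.holes, E'.size ≤ E.size ∧ E'.Leaves (fun g => g.totalDegree ≤ δ) := by
  have hc : ∀ c : ℂ, (Formula.leaf (C c) : Formula n).Leaves (fun g => g.totalDegree ≤ δ) := by
    intro c
    show (C c : MvPolynomial (Fin n) ℂ).totalDegree ≤ δ
    rw [totalDegree_C]
    exact Nat.zero_le _
  induction E with
  | leaf g =>
    intro hg E' hE'
    simp only [Formula.holes, List.mem_cons, List.not_mem_nil, or_false] at hE'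
    rcases hE' with rfl | rfl | rfl
    · exact ⟨le_rfl, hg⟩
    · exact ⟨le_rfl, hc 0⟩
    · exact ⟨le_rfl, hc 1⟩
  | gate c₀ c₁ c₂ c₃ a b iha ihb =>
    intro hg E' hE'
    have ha := size_pos a
    simp only [Formula.holes, List.mem_append, List.mem_cons, List.not_mem_nil, or_false,
      List.mem_map] at hE'
    rcases hE' with (rfl | rfl | rfl) | ⟨a', ha', rfl⟩ | ⟨b', hb', rfl⟩
    · exact ⟨le_rfl, hg⟩
    · exact ⟨by simp only [Formula.size]; omega, hc 0⟩
    · exact ⟨by simp only [Formula.size]; omega, hc 1⟩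
    · have h1 := iha hg.1 a' ha'
      exact ⟨Nat.add_le_add_right h1.1 _, h1.2, hg.2⟩
    · have h1 := ihb hg.2 b' hb'
      exact ⟨Nat.add_le_add_left h1.1 _, hg.1, h1.2⟩

theorem segs_prop (δ : ℕ) (E : Formula n) : E.Leaves (fun g => g.totalDegree ≤ δ) →
    ∀ E' ∈ E.segs, E'.size ≤ E.size ∧ E'.Leaves (fun g => g.totalDegree ≤ δ) := by
  induction E with
  | leaf g => exact fun hg => holes_prop δ _ hg
  | gate c₀ c₁ c₂ c₃ a b iha ihb =>
    intro hg E' hE'
    rw [Formula.segs, List.mem_append, List.mem_append] at hE'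
    rcases hE' with h | h | h
    · exact holes_prop δ _ hg E' h
    · exact ⟨(iha hg.1 E' h).1.trans (Nat.le_add_right _ _), (iha hg.1 E' h).2⟩
    · exact ⟨(ihb hg.2 E' h).1.trans (Nat.le_add_left _ _), (ihb hg.2 E' h).2⟩

theorem value_degree (δ : ℕ) (E : Formula n) (h : E.Leaves (fun g => g.totalDegree ≤ δ)) :
    E.value.totalDegree ≤ δ * E.size := by
  induction E with
  | leaf g =>
    rw [Formula.size, mul_one]
    exact h
  | gate c₀ c₁ c₂ c₃ a b iha ihb =>
    have h1 := iha h.1
    have h2 := ihb h.2
    have hC : ∀ (c : ℂ) (f : MvPolynomial (Fin n) ℂ), (C c * f).totalDegree ≤ f.totalDegree := by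
      intro c f
      refine (totalDegree_mul _ _).trans ?_
      rw [totalDegree_C, zero_add]
    rw [Formula.value, Formula.size, mul_add]
    refine (totalDegree_add _ _).trans (max_le ((totalDegree_add _ _).trans (max_le
      ((totalDegree_add _ _).trans (max_le ?_ ?_)) ?_)) ?_)
    · rw [totalDegree_C]; exact Nat.zero_le _
    · exact (hC _ _).trans (h1.trans (Nat.le_add_right _ _))
    · exact (hC _ _).trans (h2.trans (Nat.le_add_left _ _))
    · exact (hC _ _).trans ((totalDegree_mul _ _).trans (Nat.add_le_add h1 h2))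

theorem partials_degree (δ : ℕ) (E : Formula n) (h : E.Leaves (fun g => g.totalDegree ≤ δ)) :
    ∀ g ∈ E.partials, g.totalDegree ≤ δ * E.size := by
  induction E with
  | leaf g => exact fun g hg => absurd hg List.not_mem_nil
  | gate c₀ c₁ c₂ c₃ a b iha ihb =>
    intro g hg
    have hC : ∀ (c c' : ℂ) (f : MvPolynomial (Fin n) ℂ),
        (C c + C c' * f).totalDegree ≤ f.totalDegree := by
      intro c c' f
      refine (totalDegree_add _ _).trans (max_le ?_ ?_)
      · rw [totalDegree_C]; exact Nat.zero_le _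
      · refine (totalDegree_mul _ _).trans ?_
        rw [totalDegree_C, zero_add]
    rw [Formula.size, mul_add]
    simp only [Formula.partials, List.mem_append, List.mem_cons, List.not_mem_nil,
      or_false] at hg
    rcases hg with (hg | hg) | (rfl | rfl)
    · exact (iha h.1 g hg).trans (Nat.le_add_right _ _)
    · exact (ihb h.2 g hg).trans (Nat.le_add_left _ _)
    · exact (hC _ _ _).trans ((value_degree δ b h.2).trans (Nat.le_add_left _ _))
    · exact (hC _ _ _).trans ((value_degree δ a h.1).trans (Nat.le_add_right _ _))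

theorem flatMap_length_le {α β : Type} (l : List α) (g : α → List β) (B : ℕ)
    (h : ∀ x ∈ l, (g x).length ≤ B) : (l.flatMap g).length ≤ l.length * B := by
  induction l with
  | nil => simp
  | cons x l ih =>
    rw [List.flatMap_cons, List.length_append, List.length_cons, add_mul, one_mul, add_comm]
    exact Nat.add_le_add (ih fun y hy => h y (List.mem_cons_of_mem _ hy))
      (h x List.mem_cons_self)

theorem tests_count (l : List (Formula n)) (S δ : ℕ)
    (h : ∀ E ∈ l, E.size ≤ S ∧ E.Leaves (fun g => g.totalDegree ≤ δ)) :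
    (tests l).length ≤ 12 * l.length * S ^ 3 ∧
      ((tests l).map totalDegree).sum ≤ 12 * l.length * S ^ 4 * δ := by
  have h1 : (tests l).length ≤ 12 * l.length * S ^ 3 := by
    refine (flatMap_length_le l _ (12 * S ^ 3) fun E hE => ?_).trans (le_of_eq (by ring))
    refine (flatMap_length_le E.segs _ (2 * S) fun E' hE' => ?_).trans ?_
    · have h2 := partials_length E'
      have h3 := (segs_prop δ E (h E hE).2 E' hE').1
      have h4 := (h E hE).1
      omega
    · have h2 := segs_length E
      have h3 : E.size ^ 2 ≤ S ^ 2 := Nat.pow_le_pow_left (h E hE).1 2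
      calc E.segs.length * (2 * S) ≤ (6 * S ^ 2) * (2 * S) :=
            Nat.mul_le_mul_right _ (by omega)
        _ = 12 * S ^ 3 := by ring
  refine ⟨h1, ?_⟩
  have h2 : ∀ d ∈ (tests l).map totalDegree, d ≤ δ * S := by
    intro d hd
    obtain ⟨g, hg, rfl⟩ := List.mem_map.1 hd
    obtain ⟨E, hE, hg⟩ := List.mem_flatMap.1 hg
    obtain ⟨E', hE', hg⟩ := List.mem_flatMap.1 hg
    have h3 := segs_prop δ E (h E hE).2 E' hE'
    exact (partials_degree δ E' h3.2 g hg).trans (Nat.mul_le_mul_left _ (h3.1.trans (h E hE).1))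
  have h3 := List.sum_le_card_nsmul _ _ h2
  rw [List.length_map, smul_eq_mul] at h3
  calc ((tests l).map totalDegree).sum ≤ (tests l).length * (δ * S) := h3
    _ ≤ (12 * l.length * S ^ 3) * (δ * S) := Nat.mul_le_mul_right _ h1
    _ = 12 * l.length * S ^ 4 * δ := by ring

end count

theorem sums_formula {w κ : ℕ} (hw : 1 ≤ w) (l : List (Formula n))
    (T : Fin κ → Multiset (Formula n)) (hT : ∀ i, ∀ E ∈ T i, E ∈ l) :
    Sums l w κ (∑ i, ((T i).map Formula.value).prod) := by
  refine ⟨κ, fun i => (T i).map Formula.value, ?_, ?_,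
    Subalgebra.sum_mem _ fun i _ => Algebra.subset_adjoin ⟨i, rfl⟩⟩
  · intro i g hg
    obtain ⟨E, hE, rfl⟩ := Multiset.mem_map.1 hg
    exact ⟨fun _ => E, X ⟨0, hw⟩, fun _ => hT i E hE, by rw [aeval_X]⟩
  · intro u hu
    have h1 : Function.Injective u := by
      intro a b hab
      exact hu.injective (by
        show ((T (u a)).map Formula.value).prod = ((T (u b)).map Formula.value).prod
        rw [hab])
    have h2 := Fintype.card_le_of_injective u h1
    rw [Fintype.card_fin, Fintype.card_fin] at h2
    omega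

/-- Let `w, D, k` be fixed. There is `m` such that the following holds for every list `l` of
formulas in `n` variables over leaves of depth at most `D` (for instance, for `D = 1`, oblivious
branching programs of constant width which read every variable boundedly often in any order),
where every variable occurs in at most `w` leaves of a formula, and for every `d` that is at least
the sum of the degrees of the polynomials in `tests l`. The search `Run` over the explicit set
`points n (m (s + 1)) d` and the list `tests l` always ends in a point `σ` such that a polynomial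
`f` of `Sums l w k` of degree at most `d` is zero if and only if it vanishes at all the points
`σ + p`, `p ∈ points n (m (s + 1)) d`. Moreover the numbers of points and of tests, the degrees of
the tests and the coordinates of `σ` are bounded polynomially (the latter in their length), and
`Sums l w k` contains all sums of `k` products, of any number of factors, of members of `l`. -/
theorem result :
    (∀ w D k : ℕ, ∃ m : ℕ, ∀ (n d s : ℕ) (l : List (Formula n)),
      (∀ E ∈ l, E.Leaves (Abp w s D) ∧ ∀ x, E.reads x ≤ w) →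
      ((tests l).map totalDegree).sum ≤ d →
      (points n (m * (s + 1)) d).card ≤ ((d + 1) * (n * d + 1)) ^ (m * (s + 1)) ∧
      (∃ σ K, Run (points n (m * (s + 1)) d) (tests l) σ K) ∧
      ∀ σ K, Run (points n (m * (s + 1)) d) (tests l) σ K →
        (∀ i, |σ i| ≤ (((tests l).length * (m * (s + 1) * d * (n * d + n) ^ (n - 1)) : ℕ) : ℤ)) ∧
        ∀ f : MvPolynomial (Fin n) ℂ, Sums l w k f → f.totalDegree ≤ d →
          (f = 0 ↔ ∀ p ∈ points n (m * (s + 1)) d,
            eval (fun i => ((σ i + p i : ℤ) : ℂ)) f = 0)) ∧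
    (∀ (n S δ : ℕ) (l : List (Formula n)),
      (∀ E ∈ l, E.size ≤ S ∧ E.Leaves (fun g => g.totalDegree ≤ δ)) →
      (tests l).length ≤ 12 * l.length * S ^ 3 ∧
        ((tests l).map totalDegree).sum ≤ 12 * l.length * S ^ 4 * δ) ∧
    (∀ (n w k : ℕ) (l : List (Formula n)) (T : Fin k → Multiset (Formula n)), 1 ≤ w →
      (∀ i, ∀ E ∈ T i, E ∈ l) → Sums l w k (∑ i, ((T i).map Formula.value).prod)) ∧
    (∀ (n w r l : ℕ) (a : Fin l → Fin n) (M : Fin l → Matrix (Fin w) (Fin w) (Polynomial ℂ))
      (u v : Fin w → ℂ), (∀ i, (Finset.univ.filter fun t => a t = i).card ≤ r) →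
      Abp (w + r) 0 1 (oblivious a M u v)) ∧
    ∀ (n w s D : ℕ) (f : MvPolynomial (Fin n) ℂ), 1 ≤ w → Abp w s D f → Abp w s (D + 1) f := by
  refine ⟨?_, fun n S δ l h => tests_count l S δ h, fun n w κ l T hw hT => sums_formula hw l T hT,
    fun n w r l a M u v ha => oblivious_mem a ha M u v, fun n w s D f hw h => abp_lift hw h⟩
  intro w D κ
  obtain ⟨m, hm⟩ := @hit_of_run w D κ
  refine ⟨m, fun n d s l hl hD => ⟨hitSet_card n _ d, exists_run _ _, fun σ K hrun =>
    ⟨fun i => hrun.bound (fun p hp i => hitSet_bound n _ d p hp i) i, fun f hf hfD => ?_⟩⟩⟩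
  constructor
  · rintro rfl p _
    rw [map_zero]
  · intro h
    by_contra hf0
    obtain ⟨p, hp, hpe⟩ := hm n d s l hl hD σ K hrun f hf hfD hf0
    exact hpe (h p hp)

end Pool.Agent.Results.MP_e2be99_lc.FormulasOverPrograms
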