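import Mathlib
import Pool.Agent.H532R2.DT.Circ

/-!
# A subexponential deterministic identity test for skew circuits, branching programs,
symbolic determinants, and circuits with few general products

`s` counts the occurrences of variables and `h` the products of a circuit none of whose factors is
a leaf. For every `r ≥ 1` an explicit set of at most
`(12 (r+h)^2 (n+1) (s 2^h + 1)) ^ (12 (r+h)^2 + 4 (s/r) + 1)` integer points detects every nonzero
polynomial computed by such a circuit. For `r = ⌈s^(1/3)⌉` this is `2^(O((s^(1/3)+h)^2 (h+log s)))`.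
-/

namespace Pool.Agent.Results.MP_e2be99_lc.SubexponentialTest

/-- Expressions: variables, constants, sums, products, and determinants. The gate
`det N m A u v e` is the determinant of the `N × N` matrix `A + ∑_a e_a u_a v_aᵀ`, where `A` and
the vectors `u_a`, `v_a` are constant and `e_1, …, e_m` are expressions. -/
inductive Expr (F : Type*) (n : ℕ) where
  | var (i : Fin n) : Expr F n
  | const (c : F) : Expr F n
  | add (e f : Expr F n) : Expr F n
  | mul (e f : Expr F n) : Expr F n
  | det (N m : ℕ) (A : Fin N → Fin N → F) (u v : Fin m → Fin N → F) (e : Fin m → Expr F n) :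
      Expr F n

/-- The polynomial defined by an expression. -/
noncomputable def Expr.poly {F : Type*} [Field F] {n : ℕ} : Expr F n → MvPolynomial (Fin n) F
  | .var i => MvPolynomial.X i
  | .const c => MvPolynomial.C c
  | .add e f => e.poly + f.poly
  | .mul e f => e.poly * f.poly
  | .det _ _ A u v e => Matrix.det (Matrix.of fun i j =>
      MvPolynomial.C (A i j) + ∑ a, MvPolynomial.C (u a i * v a j) * (e a).poly)

/-- The number of occurrences of variables in an expression. -/
def Expr.size {F : Type*} {n : ℕ} : Expr F n → ℕ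
  | .var _ => 1
  | .const _ => 0
  | .add e f => e.size + f.size
  | .mul e f => e.size + f.size
  | .det _ _ _ _ _ e => ∑ a, (e a).size

/-- The node number `k` of a circuit: a leaf labelled by an expression (for instance by a variable
or by a constant), or a sum or product of two earlier nodes. -/
inductive Node (F : Type*) (n k : ℕ) where
  | leaf (E : Expr F n) : Node F n k
  | add (a b : Fin k) : Node F n k
  | mul (a b : Fin k) : Node F n k

/-- A circuit with nodes `0, …, N - 1`. -/
def Circuit (F : Type*) (n N : ℕ) := (k : Fin N) → Node F n k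

/-- An input of the node `k`, as a node of the circuit. -/
def inp {N : ℕ} {k : Fin N} (a : Fin k) : Fin N := ⟨a, a.isLt.trans k.isLt⟩

/-- The polynomial computed at the node `k`. -/
noncomputable def Circuit.val {F : Type*} [Field F] {n N : ℕ} (G : Circuit F n N) (k : Fin N) :
    MvPolynomial (Fin n) F :=
  match G k with
  | .leaf E => E.poly
  | .add a b => G.val (inp a) + G.val (inp b)
  | .mul a b => G.val (inp a) * G.val (inp b)
termination_by (k : ℕ)
decreasing_by all_goals first | exact a.isLt | exact b.isLt

/-- The label of the node `k` if it is a leaf. -/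
def Circuit.label {F : Type*} {n N : ℕ} (G : Circuit F n N) (k : Fin N) : Option (Expr F n) :=
  match G k with
  | .leaf E => some E
  | _ => none

/-- The number of occurrences of variables at the node `k`: the size of the label of a leaf; for a
product with a factor which is a leaf, the size of the label of this leaf; otherwise `0`. -/
def Circuit.weight {F : Type*} {n N : ℕ} (G : Circuit F n N) (k : Fin N) : ℕ :=
  match G k with
  | .leaf E => E.size
  | .add _ _ => 0
  | .mul a b =>
    match G.label (inp b), G.label (inp a) with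
    | some E, _ => E.size
    | none, some E => E.size
    | none, none => 0

/-- `1` if the node `k` is a general product, i.e. a product none of whose factors is a leaf. -/
def Circuit.general {F : Type*} {n N : ℕ} (G : Circuit F n N) (k : Fin N) : ℕ :=
  match G k with
  | .mul a b => if (G.label (inp a)).isNone ∧ (G.label (inp b)).isNone then 1 else 0
  | _ => 0

/-- The size of a circuit: the number of occurrences of variables. -/
def Circuit.size {F : Type*} {n N : ℕ} (G : Circuit F n N) : ℕ := ∑ k, G.weight k

/-- The number of general products of a circuit; it is `0` for skew circuits. -/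
def Circuit.gen {F : Type*} {n N : ℕ} (G : Circuit F n N) : ℕ := ∑ k, G.general k

/-- `ℓ = 12 (r + h)^2`, the number of seeds `y` -/
def len (h r : ℕ) : ℕ := 12 * (r + h) ^ 2

/-- `D = s 2^h`, which bounds the degree -/
def deg (s h : ℕ) : ℕ := s * 2 ^ h

/-- `brk` cuts the variables `x_0, …, x_(n-1)` into `t + 1` consecutive blocks: the variable `x_i`
is in the block whose number is the number of the break points which are at most `i`. -/
def block {n t : ℕ} (brk : Fin t → Fin (n + 1)) (i : Fin n) : Fin (t + 1) :=
  ⟨(Finset.univ.filter fun l : Fin t => (brk l : ℕ) ≤ i).card, by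
    refine Nat.lt_succ_of_le ((Finset.card_le_univ _).trans ?_)
    simp⟩

/-- The point given by positions `pos` with values `val`, by break points `brk`, and by seeds `y`
and `u`: the `i`-th coordinate is the value at the position `i` if `i` is one of the positions,
and `∑_k y_k u_b^((i+1)k)` otherwise, where `b` is the number of the block of `i`. -/
def point {n t ℓ : ℕ} (pos : Fin t → Fin (n + 1)) (val : Fin t → ℕ)
    (brk : Fin t → Fin (n + 1)) (y : Fin ℓ → ℕ) (u : Fin (t + 1) → ℕ) : Fin n → ℤ :=
  fun i => if ∃ l, (pos l : ℕ) = i then ∑ l, (if (pos l : ℕ) = i then (val l : ℤ) else 0)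
    else ∑ k : Fin ℓ, (y k : ℤ) * (u (block brk i) : ℤ) ^ (((i : ℕ) + 1) * (k : ℕ))

/-- All points with `t = ⌊s / r⌋`, `ℓ = len h r`, values and seeds `y` in `{0, …, D}` and seeds `u`
in `{0, …, ℓ n D}`, where `D = deg s h`. -/
def points (n s h r : ℕ) : Finset (Fin n → ℤ) :=
  (Finset.univ : Finset ((Fin (s / r) → Fin (n + 1)) × (Fin (s / r) → Fin (deg s h + 1)) ×
      (Fin (s / r) → Fin (n + 1)) × (Fin (len h r) → Fin (deg s h + 1)) ×
      (Fin (s / r + 1) → Fin (len h r * n * deg s h + 1)))).image
    fun q => point q.1 (fun l => (q.2.1 l : ℕ)) q.2.2.1 (fun k => (q.2.2.2.1 k : ℕ))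
      (fun c => (q.2.2.2.2 c : ℕ))

open Pool.Agent.H532R2.DT in
theorem expr_dm {F : Type*} [Field F] {n : ℕ} (E : Expr F n) :
    ∃ w : Fin n → ℕ, Dm w E.poly ∧ ∑ i, w i = E.size := by
  classical
  induction E with
  | var i => exact ⟨Pi.single i 1, Dm.var i, by
      rw [Finset.sum_pi_single', if_pos (Finset.mem_univ _)]; rfl⟩
  | const c => exact ⟨0, Dm.const c, by simp [Expr.size]⟩
  | add e f he hf =>
    obtain ⟨w, h1, h2⟩ := he
    obtain ⟨w', h1', h2'⟩ := hf
    refine ⟨w + w', ?_, by simp [Finset.sum_add_distrib, h2, h2', Expr.size]⟩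
    have h3 := Dm.det (F := F) (n := n) (N := 2) (m := 2) !![1, 0; -1, 0] !![0, 1; 1, 0]
      !![0, 1; 0, 1] ![w, w'] ![e.poly, f.poly] (by
        intro a
        fin_cases a
        · exact h1
        · exact h1')
    rw [Fin.sum_univ_two] at h3
    have h4 : Expr.poly (Expr.add e f) = Matrix.det
        ((!![1, 0; -1, 0] : Matrix (Fin 2) (Fin 2) F).map
          (MvPolynomial.C : F → MvPolynomial (Fin n) F) +
        (!![0, 1; 1, 0] : Matrix (Fin 2) (Fin 2) F).map
          (MvPolynomial.C : F → MvPolynomial (Fin n) F) *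
          Matrix.diagonal ![e.poly, f.poly] * (!![0, 1; 0, 1] : Matrix (Fin 2) (Fin 2) F).map
          (MvPolynomial.C : F → MvPolynomial (Fin n) F)) := by
      rw [Matrix.det_fin_two]
      simp [Expr.poly, Matrix.mul_apply, Fin.sum_univ_two, Matrix.diagonal]
    rw [h4]
    exact h3
  | mul e f he hf =>
    obtain ⟨w, h1, h2⟩ := he
    obtain ⟨w', h1', h2'⟩ := hf
    refine ⟨w + w', ?_, by simp [Finset.sum_add_distrib, h2, h2', Expr.size]⟩
    have h3 := Dm.det (F := F) (n := n) (N := 2) (m := 2) !![0, 0; 0, 0] !![1, 0; 0, 1]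
      !![1, 0; 0, 1] ![w, w'] ![e.poly, f.poly] (by
        intro a
        fin_cases a
        · exact h1
        · exact h1')
    rw [Fin.sum_univ_two] at h3
    have h4 : Expr.poly (Expr.mul e f) = Matrix.det
        ((!![0, 0; 0, 0] : Matrix (Fin 2) (Fin 2) F).map
          (MvPolynomial.C : F → MvPolynomial (Fin n) F) +
        (!![1, 0; 0, 1] : Matrix (Fin 2) (Fin 2) F).map
          (MvPolynomial.C : F → MvPolynomial (Fin n) F) *
          Matrix.diagonal ![e.poly, f.poly] * (!![1, 0; 0, 1] : Matrix (Fin 2) (Fin 2) F).map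
          (MvPolynomial.C : F → MvPolynomial (Fin n) F)) := by
      rw [Matrix.det_fin_two]
      simp [Expr.poly, Matrix.mul_apply, Fin.sum_univ_two, Matrix.diagonal]
    rw [h4]
    exact h3
  | det N m A u v e ih =>
    choose w hw1 hw2 using ih
    refine ⟨∑ a, w a, ?_, ?_⟩
    · have h3 := Dm.det (F := F) (n := n) (Matrix.of A) (Matrix.of fun i a => u a i)
        (Matrix.of fun a j => v a j) w (fun a => (e a).poly) hw1
      have h4 : Expr.poly (Expr.det N m A u v e) = Matrix.det
          ((Matrix.of A).map (MvPolynomial.C : F → MvPolynomial (Fin n) F) +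
          (Matrix.of fun i a => u a i).map (MvPolynomial.C : F → MvPolynomial (Fin n) F) *
            Matrix.diagonal (fun a => (e a).poly) *
              (Matrix.of fun a j => v a j).map (MvPolynomial.C : F → MvPolynomial (Fin n) F)) := by
        rw [Expr.poly]
        congr 1
        ext1 i j
        rw [Matrix.of_apply, Matrix.add_apply, Matrix.mul_apply, Matrix.map_apply, Matrix.of_apply]
        congr 1
        apply Finset.sum_congr rfl
        intro a _
        rw [Matrix.mul_diagonal, Matrix.map_apply, Matrix.map_apply, Matrix.of_apply,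
          Matrix.of_apply, map_mul]
        ring
      rw [h4]
      exact h3
    · rw [Expr.size]
      simp only [Finset.sum_apply]
      rw [Finset.sum_comm]
      exact Finset.sum_congr rfl fun a _ => hw2 a

theorem val_leaf {F : Type*} [Field F] {n N : ℕ} (G : Circuit F n N) (k : Fin N) (E : Expr F n)
    (h : G k = .leaf E) : G.val k = E.poly := by
  rw [Circuit.val, h]

theorem val_add {F : Type*} [Field F] {n N : ℕ} (G : Circuit F n N) (k : Fin N) (a b : Fin k)
    (h : G k = .add a b) : G.val k = G.val (inp a) + G.val (inp b) := by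
  rw [Circuit.val, h]

theorem val_mul {F : Type*} [Field F] {n N : ℕ} (G : Circuit F n N) (k : Fin N) (a b : Fin k)
    (h : G k = .mul a b) : G.val k = G.val (inp a) * G.val (inp b) := by
  rw [Circuit.val, h]

theorem label_some {F : Type*} {n N : ℕ} (G : Circuit F n N) (k : Fin N) (E : Expr F n)
    (h : G.label k = some E) : G k = .leaf E := by
  unfold Circuit.label at h
  cases hk : G k with
  | leaf E' => rw [hk] at h; simp at h; rw [h]
  | add a b => rw [hk] at h; simp at h
  | mul a b => rw [hk] at h; simp at h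

theorem inp_lt {N : ℕ} {k : Fin N} (a : Fin k) : ((inp a : Fin N) : ℕ) < k := a.isLt

open Pool.Agent.H532R2.DT in
theorem node_row {F : Type*} [Field F] {n N : ℕ} (G : Circuit F n N) (k : Fin N) :
    ∃ w : Fin n → ℕ, ∑ i, w i = G.weight k ∧
      (Dm w (G.val k) ∨
      (∃ a b : Fin N, (a : ℕ) < k ∧ (b : ℕ) < k ∧ G.val k = G.val a + G.val b) ∨
      (∃ (a : Fin N) (f : MvPolynomial (Fin n) F), (a : ℕ) < k ∧ Dm w f ∧ G.val k = f * G.val a) ∨
      (∃ a b : Fin N, (a : ℕ) < k ∧ (b : ℕ) < k ∧ G.general k = 1 ∧
        G.val k = G.val a * G.val b)) := by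
  cases hk : G k with
  | leaf E =>
    obtain ⟨w, h1, h2⟩ := expr_dm E
    refine ⟨w, ?_, Or.inl ?_⟩
    · rw [Circuit.weight, hk]
      exact h2
    · rw [val_leaf G k E hk]
      exact h1
  | add a b =>
    refine ⟨0, ?_, Or.inr (Or.inl ⟨inp a, inp b, inp_lt a, inp_lt b, val_add G k a b hk⟩)⟩
    rw [Circuit.weight, hk]
    simp
  | mul a b =>
    cases hb : G.label (inp b) with
    | some E =>
      obtain ⟨w, h1, h2⟩ := expr_dm E
      refine ⟨w, ?_, Or.inr (Or.inr (Or.inl ⟨inp a, E.poly, inp_lt a, h1, ?_⟩))⟩
      · rw [Circuit.weight, hk]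
        simp only [hb]
        exact h2
      · rw [val_mul G k a b hk, val_leaf G (inp b) E (label_some G _ E hb), mul_comm]
    | none =>
      cases ha : G.label (inp a) with
      | some E =>
        obtain ⟨w, h1, h2⟩ := expr_dm E
        refine ⟨w, ?_, Or.inr (Or.inr (Or.inl ⟨inp b, E.poly, inp_lt b, h1, ?_⟩))⟩
        · rw [Circuit.weight, hk]
          simp only [hb, ha]
          exact h2
        · rw [val_mul G k a b hk, val_leaf G (inp a) E (label_some G _ E ha)]
      | none =>
        refine ⟨0, ?_, Or.inr (Or.inr (Or.inr ⟨inp a, inp b, inp_lt a, inp_lt b, ?_,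
          val_mul G k a b hk⟩))⟩
        · rw [Circuit.weight, hk]
          simp only [hb, ha]
          simp
        · rw [Circuit.general, hk]
          simp [hb, ha]

theorem points_card (n s h r : ℕ) (hr : 1 ≤ r) :
    (points n s h r).card ≤ (12 * (r + h) ^ 2 * (n + 1) * (s * 2 ^ h + 1)) ^
      (12 * (r + h) ^ 2 + 4 * (s / r) + 1) := by
  unfold points
  refine Finset.card_image_le.trans ?_
  rw [Finset.card_univ]
  simp only [Fintype.card_prod, Fintype.card_pi, Fintype.card_fin, Finset.prod_const,
    Finset.card_univ]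
  have hL : len h r = 12 * (r + h) ^ 2 := rfl
  have hD : deg s h = s * 2 ^ h := rfl
  rw [← hL, ← hD]
  have hL1 : 1 ≤ len h r := by
    rw [hL]
    have : 1 ≤ (r + h) ^ 2 := Nat.one_le_pow _ _ (by omega)
    omega
  set ℓ := len h r with hℓ
  set D := deg s h with hDD
  set t := s / r with ht
  set B := ℓ * (n + 1) * (D + 1) with hB
  have hB1 : 1 ≤ B := by
    have : 0 < B := by positivity
    omega
  have h1 : n + 1 ≤ B := by
    calc n + 1 = 1 * (n + 1) * 1 := by ring
      _ ≤ ℓ * (n + 1) * (D + 1) := by gcongr; omega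
  have h2 : D + 1 ≤ B := by
    calc D + 1 = 1 * 1 * (D + 1) := by ring
      _ ≤ ℓ * (n + 1) * (D + 1) := by gcongr; omega
  have h3 : ℓ * n * D + 1 ≤ B := by
    have : ℓ * (n + 1) * (D + 1) = ℓ * n * D + ℓ * n + ℓ * D + ℓ := by ring
    omega
  calc (n + 1) ^ t * ((D + 1) ^ t * ((n + 1) ^ t * ((D + 1) ^ ℓ * (ℓ * n * D + 1) ^ (t + 1))))
      ≤ B ^ t * (B ^ t * (B ^ t * (B ^ ℓ * B ^ (t + 1)))) := by
        gcongr
    _ = B ^ (ℓ + 4 * t + 1) := by
        rw [← pow_add, ← pow_add, ← pow_add, ← pow_add]
        congr 1
        ring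

theorem points_bound (n s h r : ℕ) (p : Fin n → ℤ) (hp : p ∈ points n s h r) (i : Fin n) :
    |p i| ≤ (((len h r + s / r) * deg s h *
      (len h r * n * deg s h + 1) ^ (len h r * n) : ℕ) : ℤ) := by
  unfold points at hp
  rw [Finset.mem_image] at hp
  obtain ⟨⟨pos, val, brk, y, u⟩, _, rfl⟩ := hp
  simp only [point]
  split_ifs with hex
  · calc |∑ l, (if (pos l : ℕ) = i then ((val l : ℕ) : ℤ) else 0)|
        ≤ ∑ l, |(if (pos l : ℕ) = i then ((val l : ℕ) : ℤ) else 0)| :=
          Finset.abs_sum_le_sum_abs _ _
      _ ≤ ∑ l : Fin (s / r), (deg s h : ℤ) := by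
          apply Finset.sum_le_sum
          intro l _
          split_ifs
          · rw [abs_of_nonneg (by positivity)]
            have := (val l).isLt
            omega
          · simp
      _ = ((s / r * deg s h * 1 : ℕ) : ℤ) := by simp
      _ ≤ _ := by
          apply Int.ofNat_le.2
          gcongr
          · exact Nat.le_add_left _ _
          · exact Nat.one_le_pow _ _ (by omega)
  · calc |∑ k, ((y k : ℕ) : ℤ) * ((u (block brk i) : ℕ) : ℤ) ^ (((i : ℕ) + 1) * (k : ℕ))|
        ≤ ∑ k, |((y k : ℕ) : ℤ) * ((u (block brk i) : ℕ) : ℤ) ^ (((i : ℕ) + 1) * (k : ℕ))| :=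
          Finset.abs_sum_le_sum_abs _ _
      _ ≤ ∑ k : Fin (len h r),
          ((deg s h * (len h r * n * deg s h + 1) ^ (len h r * n) : ℕ) : ℤ) := by
          apply Finset.sum_le_sum
          intro k _
          rw [abs_of_nonneg (by positivity)]
          have h1 := (y k).isLt
          have h2 := (u (block brk i)).isLt
          have h3 : ((i : ℕ) + 1) * (k : ℕ) ≤ len h r * n := by
            rw [mul_comm (len h r) n]
            exact Nat.mul_le_mul i.isLt k.isLt.le
          have h4 : (y k : ℕ) * (u (block brk i) : ℕ) ^ (((i : ℕ) + 1) * (k : ℕ)) ≤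
              deg s h * (len h r * n * deg s h + 1) ^ (len h r * n) := by
            calc (y k : ℕ) * (u (block brk i) : ℕ) ^ (((i : ℕ) + 1) * (k : ℕ))
                ≤ deg s h * (len h r * n * deg s h + 1) ^ (((i : ℕ) + 1) * (k : ℕ)) := by
                  gcongr
                  omega
              _ ≤ _ := by
                  gcongr
                  omega
          exact_mod_cast h4
      _ = ((len h r * (deg s h * (len h r * n * deg s h + 1) ^ (len h r * n)) : ℕ) : ℤ) := by
          rw [Finset.sum_const, Finset.card_univ, Fintype.card_fin, nsmul_eq_mul]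
          push_cast
          ring
      _ ≤ _ := by
          apply Int.ofNat_le.2
          rw [← mul_assoc]
          gcongr
          exact Nat.le_add_right _ _

/-- **Subexponential deterministic identity test.** The explicit set `points n s h r` of at most
`(12 (r+h)^2 (n+1) (s 2^h + 1)) ^ (12 (r+h)^2 + 4 (s/r) + 1)` integer points detects every nonzero
polynomial computed at some node of a circuit with at most `s` occurrences of variables and at
most `h` general products, over any field of characteristic zero. -/
theorem result {F : Type*} [Field F] [CharZero F] (n s h r : ℕ) (hr : 1 ≤ r) :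
    (points n s h r).card ≤ (12 * (r + h) ^ 2 * (n + 1) * (s * 2 ^ h + 1)) ^
      (12 * (r + h) ^ 2 + 4 * (s / r) + 1) ∧
    (∀ p ∈ points n s h r, ∀ i, |p i| ≤
      (((len h r + s / r) * deg s h * (len h r * n * deg s h + 1) ^ (len h r * n) : ℕ) : ℤ)) ∧
    ∀ (N : ℕ) (G : Circuit F n N), G.size ≤ s → G.gen ≤ h → ∀ k : Fin N,
      (G.val k = 0 ↔
        ∀ p ∈ points n s h r, MvPolynomial.eval (fun i => (p i : F)) (G.val k) = 0) := by
  classical
  refine ⟨points_card n s h r hr, points_bound n s h r, ?_⟩
  intro N G hG1 hG2 k0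
  constructor
  · intro h p _
    rw [h, map_zero]
  · intro hall
    by_contra hne
    choose w hw1 hw2 using node_row G
    set z : ℕ → MvPolynomial (Fin n) F := fun k => if hk : k < N then G.val ⟨k, hk⟩ else 0 with hz
    set w' : ℕ → Fin n → ℕ := fun k => if hk : k < N then w ⟨k, hk⟩ else 0 with hw'
    set K : Finset ℕ := Finset.image (fun k : Fin N => (k : ℕ))
      (Finset.univ.filter (fun k : Fin N => G.general k = 1)) with hK
    have hzk : ∀ k : Fin N, z k = G.val k := by
      intro k
      simp only [hz]
      rw [dif_pos k.isLt]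
    have hwk : ∀ k : Fin N, w' k = w k := by
      intro k
      simp only [hw']
      rw [dif_pos k.isLt]
    have hrow : ∀ k < N, Pool.Agent.H532R2.DT.Row z w' K k := by
      intro k hk
      rcases hw2 ⟨k, hk⟩ with h1 | ⟨a, b, ha, hb, hab⟩ | ⟨a, f, ha, hf, haf⟩ |
        ⟨a, b, ha, hb, hg, hab⟩
      · refine Pool.Agent.H532R2.DT.Row.leaf ?_
        rw [hwk ⟨k, hk⟩, hzk ⟨k, hk⟩]
        exact h1
      · exact Pool.Agent.H532R2.DT.Row.add a b ha hb (by
          rw [hzk ⟨k, hk⟩, hzk a, hzk b]; exact hab)
      · exact Pool.Agent.H532R2.DT.Row.skew a f ha (by rw [hwk ⟨k, hk⟩]; exact hf) (by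
          rw [hzk ⟨k, hk⟩, hzk a]; exact haf)
      · exact Pool.Agent.H532R2.DT.Row.prod a b ha hb
          (Finset.mem_image.2 ⟨⟨k, hk⟩, Finset.mem_filter.2 ⟨Finset.mem_univ _, hg⟩, rfl⟩) (by
          rw [hzk ⟨k, hk⟩, hzk a, hzk b]; exact hab)
    have hsum : ∑ k ∈ Finset.range N, ∑ i, w' k i ≤ s := by
      refine le_trans (le_of_eq ?_) hG1
      rw [Finset.sum_range]
      unfold Circuit.size
      apply Finset.sum_congr rfl
      intro k _
      rw [hwk k]
      exact hw1 k
    have hKc : K.card ≤ h := by
      refine Finset.card_image_le.trans (le_trans ?_ hG2)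
      rw [Finset.card_filter]
      unfold Circuit.gen
      apply Finset.sum_le_sum
      intro k _
      split_ifs with h1
      · rw [h1]
      · exact Nat.zero_le _
    obtain ⟨H, bl, hH, hbl, v, y, u, hv, hy, hu, hev⟩ :=
      Pool.Agent.H532R2.DT.circ_seeds z w' K N hrow k0 k0.isLt s h r hr hsum hKc
        (by rw [hzk]; exact hne)
    rw [hzk] at hev
    obtain ⟨β, hβ⟩ := Pool.Agent.H530R2.exists_breaks bl hbl
    obtain ⟨pos, hpos1, hpos2⟩ := Pool.Agent.H530R2.exists_slots H hH
    apply hev
    have hcomm : n * (12 * (r + h) ^ 2) * (s * 2 ^ h) = len h r * n * deg s h := by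
      unfold len deg
      ring
    have hmem : point pos (fun l => if h : (pos l : ℕ) < n then v ⟨pos l, h⟩ else 0) β y u ∈
        points n s h r := by
      unfold points
      rw [Finset.mem_image]
      refine ⟨⟨pos, fun l => ⟨if h : (pos l : ℕ) < n then v ⟨pos l, h⟩ else 0, ?_⟩, β,
        fun k => ⟨y k, Nat.lt_succ_of_le (hy k)⟩,
        fun c => ⟨u c, Nat.lt_succ_of_le (by rw [← hcomm]; exact hu c)⟩⟩, Finset.mem_univ _, rfl⟩
      split_ifs
      · exact Nat.lt_succ_of_le (hv _)
      · omega
    rw [← hall _ hmem]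
    congr 2
    funext i
    have hblk : block β i = bl i := Fin.ext (hβ i)
    simp only [point]
    by_cases hi : i ∈ H
    · obtain ⟨l, hl⟩ := (hpos1 i).2 hi
      rw [if_pos hi, if_pos ⟨l, hl⟩, Finset.sum_eq_single l]
      · rw [if_pos hl]
        have h1 : (pos l : ℕ) < n := by rw [hl]; exact i.isLt
        have h2 : (⟨pos l, h1⟩ : Fin n) = i := Fin.ext hl
        rw [dif_pos h1, h2]
        simp
      · intro l' _ hne'
        rw [if_neg]
        intro h
        exact hne' (hpos2 i l' l h hl)
      · simp
    · rw [if_neg hi, if_neg (fun h => hi ((hpos1 i).1 h)), hblk]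
      push_cast
      rfl

end Pool.Agent.Results.MP_e2be99_lc.SubexponentialTest
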