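import Pool.Agent.H626R2.Loc.EHit

/-!
# Explicit hitting sets for sums of products of sparse polynomials of bounded individual degree

Polynomial size hitting sets (blackbox identity testing in deterministic polynomial time), for all
constants `k` and `d`, for sums of `k` products of `s`-sparse polynomials of individual degree
less than `d`, the number of factors being arbitrary, and more generally

* of `s`-sparse polynomials in which every variable occurs with at most `d` different exponents,
  plus or times univariate polynomials of arbitrary degree with at most `L` terms,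
* of arbitrary polynomials in `r` of these,
* of formulas of constant depth `2j`, of unbounded fan-in, over such leaves, in which every
  variable occurs a constant number `c` of times, and arbitrary polynomials in `r` of these,

and with `sums of k products` replaced by `polynomials of transcendence degree k` in products;
and for factors of products of all these.

The proof is a local-to-global principle for the algebraic independence of products
`T_a = ∏_j g_j ^ e_aj` (`Pool.Agent.H626R2.Loc.specialize`): a substitution of the coefficients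
which is injective on the algebra generated by the coefficients, with respect to the variables
of a nonvanishing Jacobian minor, of any `k + 1` of the `g_j`, preserves the independence of the
`T_a`. For this one takes a valuation with independent values of the `T_a`, restricts it to the
rational functions over the algebraic closure `M` of the field of the coefficients of `k` of the
factors whose values are independent (the residue field is then `M`), and extends it to the
rational functions over the residue field of a place of the field of coefficients.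

The proof was formalised together with helper13, 16, 58, 114, 130, 177, 201, 204, 227, 233, 339,
392, 415, 473, 485, 509, 558, 584, 601, 602, 615, 662, 708, 742, 745, 771, 862, 879, 881, 910, 992
on top of the Jacobian criterion of helper531's depth-4 project.
-/

set_option autoImplicit false

namespace Pool.Agent.Results.MP_e2be99_lc.UnboundedProducts

open MvPolynomial

section defs

variable {K : Type} [Field K] {n : ℕ}

/-- `Simple L s d`: the polynomials `u + q` and `v * q`, where `u` is a sum and `v` a product of
univariate polynomials `u m` with at most `L` terms, one for each variable, and `q` is a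
polynomial with at most `s` terms in which every variable occurs with at most `d` different
exponents (`0` included), for instance a polynomial of degree less than `d` in each variable. -/
def Simple (n : ℕ) (K : Type) [Field K] (L s d : ℕ) : Set (MvPolynomial (Fin n) K) :=
  {σ | ∃ (u : Fin n → Polynomial K) (q : MvPolynomial (Fin n) K),
    (∀ m, (u m).support.card ≤ L) ∧ q.support.card ≤ s ∧
    (∀ m : Fin n, (insert 0 (q.support.image fun e => e m)).card ≤ d) ∧
    (σ = ∑ m, Polynomial.aeval (X m) (u m) + q ∨
      σ = (∏ m, Polynomial.aeval (X m) (u m)) * q)}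

/-- sums of any number of constant multiples of products of any number of powers of members of
`S`, such that every variable occurs in at most `c` of the bases -/
def Occ (c : ℕ) (S : Set (MvPolynomial (Fin n) K)) : Set (MvPolynomial (Fin n) K) :=
  {σ | ∃ (N I : ℕ) (a : Fin N → K) (g : Fin N → Fin I → MvPolynomial (Fin n) K)
    (e : Fin N → Fin I → ℕ), (∀ l i, g l i ∈ S) ∧
    (∀ m : Fin n, {li : Fin N × Fin I | m ∈ (g li.1 li.2).vars}.ncard ≤ c) ∧
    σ = ∑ l, C (a l) * ∏ i, g l i ^ e l i}

/-- `Lev 0` are the simple polynomials, `Lev (j + 1) = Occ c (Lev j)`. -/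
def Lev (n : ℕ) (K : Type) [Field K] (L s d c : ℕ) : ℕ → Set (MvPolynomial (Fin n) K)
  | 0 => Simple n K L s d
  | j + 1 => Occ c (Lev n K L s d c j)

/-- arbitrary polynomials in `r` members of `S` -/
def Cls (r : ℕ) (S : Set (MvPolynomial (Fin n) K)) : Set (MvPolynomial (Fin n) K) :=
  {g | ∃ (σ : Fin r → MvPolynomial (Fin n) K) (P : MvPolynomial (Fin r) K),
    (∀ i, σ i ∈ S) ∧ g = aeval σ P}

/-- `f` is a polynomial in finitely many products of members of `S` (of any number of factors),
no `k + 1` of which are algebraically independent; for instance a sum of `k` such products. -/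
def IsBddTr (k : ℕ) (S : Set (MvPolynomial (Fin n) K)) (f : MvPolynomial (Fin n) K) : Prop :=
  ∃ (N : ℕ) (T : Fin N → Multiset (MvPolynomial (Fin n) K)), (∀ i, ∀ g ∈ T i, g ∈ S) ∧
    (∀ u : Fin (k + 1) → Fin N, ¬ AlgebraicIndependent K (fun a => (T (u a)).prod)) ∧
    f ∈ Algebra.adjoin K (Set.range fun i => (T i).prod)

end defs

/-- `cf d c k j` -/
def cf (d c k : ℕ) : ℕ → ℕ
  | 0 => d ^ k
  | j + 1 => 1 + k * c + k * c * cf d c k j

/-- `pn d c j k r`, for `j = 0` it is `(k + 1) * r * d ^ k` -/
def pn (d c j k r : ℕ) : ℕ := (k + 1) * (r * cf d c k j)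

/-- the value of `k` used at level `j` for the Jacobian determinants of level `j + 1` -/
def kn (d c j k r : ℕ) : ℕ :=
  (pn d c (j + 1) k r).factorial * (c ^ (j + 1) * 2) ^ pn d c (j + 1) k r

/-- the number of pairs of seeds, for `j = 0` it is `k + (k + 1) * r * d ^ k` -/
def seeds (d c : ℕ) : ℕ → ℕ → ℕ → ℕ
  | 0, k, r => k + pn d c 0 k r
  | j + 1, k, r => k + pn d c (j + 1) k r + seeds d c j (kn d c j k r) 1

/-- the number of simple polynomials in the last Jacobian determinants, for `j = 0` it is
`(k + 1) * r * d ^ k` -/
def last (d c : ℕ) : ℕ → ℕ → ℕ → ℕ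
  | 0, k, r => pn d c 0 k r
  | j + 1, k, r => last d c j (kn d c j k r) 1

/-- the number of interpolated powers: `p! * (L ^ p * s + L + s + 1) ^ p` with
`p = last d c j k r` -/
def powers (L s d c j k r : ℕ) : ℕ :=
  (last d c j k r).factorial * (L ^ last d c j k r * s + L + s + 1) ^ last d c j k r

/-- The point with seeds `u`, `y`, `z`: its coordinate number `m` is
`∑_{i ≤ N} (p_m - 1) ^ i * (u choose i) + ∑_l y_l * ∏_{j ≠ m} (z_l - j)`, where `p_m` is the
`m`-th prime number; the first sum is `p_m ^ u` if `u ≤ N`. -/
noncomputable def point (n T N u : ℕ) (y z : Fin T → ℕ) : Fin n → ℤ := fun m =>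
  ((∑ i ∈ Finset.range (N + 1), (Nat.nth Nat.Prime m - 1) ^ i * u.choose i : ℕ) : ℤ) +
    ∑ l : Fin T, (y l : ℤ) * ∏ j ∈ Finset.univ.erase m, ((z l : ℤ) - ((j : ℕ) : ℤ))

/-- the explicit set of all points with seeds `u ∈ {0,…,ND}`, `y ∈ {0,…,D}^T`,
`z ∈ {0,…,nD}^T` -/
noncomputable def points (n T N D : ℕ) : Finset (Fin n → ℤ) :=
  ((Finset.range (N * D + 1)) ×ˢ ((Fintype.piFinset fun _ : Fin T => Finset.range (D + 1)) ×ˢ
    (Fintype.piFinset fun _ : Fin T => Finset.range (n * D + 1)))).image
    fun uyz => point n T N uyz.1 uyz.2.1 uyz.2.2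

open Pool.Agent.H626R2

theorem simple_eq {n : ℕ} {K : Type} [Field K] {L s d : ℕ} :
    Simple n K L s d = Loc.SimpleE n K L s d := by
  ext σ
  constructor
  · rintro ⟨u, q, hu, hq, hd, h | h⟩
    · exact Or.inl ⟨u, q, hu, hq, hd, h⟩
    · exact Or.inr ⟨u, q, hu, hq, hd, h⟩
  · rintro (⟨u, q, hu, hq, hd, h⟩ | ⟨u, q, hu, hq, hd, h⟩)
    · exact ⟨u, q, hu, hq, hd, Or.inl h⟩
    · exact ⟨u, q, hu, hq, hd, Or.inr h⟩

theorem lev_eq {n : ℕ} {K : Type} [Field K] {L s d c : ℕ} (j : ℕ) :
    Lev n K L s d c j = Loc.LevG (Loc.SimpleE n K L s d) c j := by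
  induction j with
  | zero => exact simple_eq
  | succ j ih =>
    show Occ c (Lev n K L s d c j) = Loc.Occ c (Loc.LevG (Loc.SimpleE n K L s d) c j)
    rw [ih]
    rfl

theorem cf_eq (d c k j : ℕ) : cf d c k j = Loc.cfG (fun k => d ^ k) c k j := by
  induction j with
  | zero => rfl
  | succ j ih =>
    show 1 + k * c + k * c * cf d c k j = 1 + k * c + k * c * Loc.cfG (fun k => d ^ k) c k j
    rw [ih]

theorem pn_eq (d c j k r : ℕ) : pn d c j k r = Loc.ptG (fun k => d ^ k) c j k r := by
  unfold pn Loc.ptG
  rw [cf_eq]

theorem cd_eq (c j : ℕ) : c ^ j * 2 = Loc.cdG 2 c j := by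
  induction j with
  | zero => rfl
  | succ j ih =>
    show c ^ (j + 1) * 2 = c * Loc.cdG 2 c j
    rw [← ih, pow_succ]
    ring

theorem seeds_eq (d c j : ℕ) : ∀ k r, seeds d c j k r = Loc.TtG (fun k => d ^ k) 2 c j k r := by
  induction j with
  | zero =>
    intro k r
    show k + pn d c 0 k r = k + Loc.ptG (fun k => d ^ k) c 0 k r
    rw [pn_eq]
  | succ j ih =>
    intro k r
    show k + pn d c (j + 1) k r + seeds d c j (kn d c j k r) 1 = _
    rw [ih]
    unfold kn
    rw [pn_eq, cd_eq]
    rfl

theorem last_eq (d c j : ℕ) : ∀ k r, last d c j k r = Loc.PtG (fun k => d ^ k) 2 c j k r := by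
  induction j with
  | zero =>
    intro k r
    exact pn_eq d c 0 k r
  | succ j ih =>
    intro k r
    show last d c j (kn d c j k r) 1 = _
    rw [ih]
    unfold kn
    rw [pn_eq, cd_eq]
    rfl

/-- For all positive `L, d, c` and all `s, j, k, r, n, D` the explicit set
`points n T N D ⊆ ℤ^n`, `T = seeds d c j k r`, `N = powers L s d c j k r`, has at most
`(N D + 1) ((D + 1) (n D + 1)) ^ T` elements, with coordinates of polynomial bit length, and hits
every polynomial of total degree at most `D` over a field of characteristic zero which divides a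
product of any number of nonzero polynomials `F_i`, each of which is a polynomial in products
(of any number of factors), of transcendence degree at most `k`, of polynomials in `r` members
of `Lev j`. -/
theorem result (L s d c j k r n D : ℕ) (hL : 1 ≤ L) (hd : 1 ≤ d) (hc : 1 ≤ c)
    (T : ℕ) (hT : T = seeds d c j k r) (N : ℕ) (hN : N = powers L s d c j k r) :
    (points n T N D).card ≤ (N * D + 1) * ((D + 1) * (n * D + 1)) ^ T ∧
    (∀ p ∈ points n T N D, ∀ i,
      |p i| ≤ ((2 ^ (n * N * D) + T * D * (n * D + n) ^ (n - 1) : ℕ) : ℤ)) ∧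
    ∀ (K : Type) [Field K] [CharZero K] (f : MvPolynomial (Fin n) K) (M : ℕ)
      (F : Fin M → MvPolynomial (Fin n) K),
      (∀ i, IsBddTr k (Cls r (Lev n K L s d c j)) (F i)) → (∀ i, F i ≠ 0) → f ∣ ∏ i, F i →
      f.totalDegree ≤ D → ∃ p ∈ points n T N D, eval (fun i => ((p i : ℤ) : K)) f ≠ 0 := by
  refine ⟨Loc.pointsE_card n T N D, fun p hp i => Loc.pointsE_bound n T N D p hp i, ?_⟩
  intro K _ _ f M F hF hF0 hdvd hD
  refine Loc.hitE (L := L) (s := s) (d := d) (c := c) (j := j) (k := k) (ρ := r) hL hd hc ?_ ?_ f M
    F ?_ hF0 hdvd hD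
  · rw [hT, seeds_eq]
    exact le_rfl
  · rw [hN]
    unfold powers
    rw [last_eq]
    exact le_rfl
  · intro i
    have h := hF i
    rw [lev_eq] at h
    exact h

end Pool.Agent.Results.MP_e2be99_lc.UnboundedProducts
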